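import Pool.Agent.Helper64.FL2.SurjB

/-!
# Project FL2, module F6 (SURJ), part C: the suspension step

The statements of the modules V4 (`sg_succ_iff`), F2 and F3 which are used are collected, verbatim,
in the structure `SurjHyp`.
-/

open CategoryTheory MonoidalCategory Simplicial Opposite

set_option autoImplicit false

namespace Helper64FL2

open FL
open Pool.Agent.Helper83.FL4 (deps exists_rel_ext PPι_trivCof_of_anodyne horn_anodyne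
  Mp_post_kanFib Mp_pre_kanFib Mp_kan kan_of_kanFib)
open Pool.Agent.Helper91.FL2 (objKan_of_injFib cn_of_htpy cn_symm cn_trans cn_map cn_refl toHom
  toHom_ofHom)
open Pool.Agent.Helper54.FL2 (cn_lift Fp_fst_kanFib Fp_ext kanFib_comp)
open Helper53FL2 (pk susH susH_vsOf susH_vsEnd V1_extH desusH desusH_val V1map_vsOf V1map_vsEnd
  V1map_mono endsV_kanFib)

/-- The statements of the modules V4, F2, F3 used below. -/
structure SurjHyp : Prop where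
  sg_succ_iff : ∀ {n : ℕ} {X : SP (Th (n + 1))} (_ : InjFib X) (O : Set (Vt (C := Th n) X))
    (_ : ∀ z : Vt (C := Th n) X, ∃ x ∈ O, Cn (X.obj (op (ptT (n + 1)))) x z),
    Sg (n + 1) X ↔ SpLoc (C := Th n) X ∧ ∀ x ∈ O, ∀ y ∈ O, Sg n (Hm (C := Th n) X x y)
  FHm_injFib : ∀ {n : ℕ} {D : SP (Gn (n + 1))} (_ : InjFib D) (x y : Vt (C := Th n) (level D 0)),
    InjFib (FHm D x y)
  FHm_levelMap : ∀ {n : ℕ} (D : SP (Gn (n + 1))) (x y : Vt (C := Th n) (level D 0))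
    {i j : Fin (n + 1)} (h : i ≤ j) (h' : i.succ ≤ j.succ),
    ∃ e : level (FHm D x y) j ≅ Hm (C := Th n) (level D j.succ)
        (vtMap (C := Th n) (levelMap D h') (vlev D x i.succ))
        (vtMap (C := Th n) (levelMap D h') (vlev D y i.succ)),
      levelMap (FHm D x y) h ≫ e.hom =
        HmMap (C := Th n) (levelMap D h') (vlev D x i.succ) (vlev D y i.succ)
  exists_NDHm : ∀ {n : ℕ} {X : SP (Th (n + 1))} {D : SP (Gn (n + 1))} (f : filt X ⟶ D)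
    (x y : Vt (C := Th n) X),
    ∃ f' : filt (Hm (C := Th n) X x y) ⟶ FHm D (vf f x) (vf f y),
      (∀ (g : (Gn n)ᵒᵖ) (k : SimplexCategoryᵒᵖ)
        (z : ((Hm (C := Th n) X x y).obj (op ((tower n).obj g.unop))).obj k),
        ((f'.app g).app k z).1 =
          (f.app (op ((segG n).obj g.unop))).app k (Hm.val (C := Th n) z)) ∧
      ∃ e : ND (FHm D (vf f x) (vf f y)) ≅ Hm (C := Th n) (ND D) (vtMap (C := Th n) (flat f) x)
        (vtMap (C := Th n) (flat f) y), flat f' ≫ e.hom = HmMap (C := Th n) (flat f) x y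
  vt_filt : ∀ {n : ℕ} (X : SP (Th (n + 1))) (i : Fin (n + 1)),
    Function.Bijective fun a : Vt (C := Th n) (level (filt X) i.succ) =>
      ((X.map ((trUnit (n + 1) i.succ).app (ptT (n + 1))).op).app _ a : Vt (C := Th n) X)
  ES_NDHm : ∀ {n : ℕ} {X : SP (Th (n + 1))} {D : SP (Gn (n + 1))} (f : filt X ⟶ D)
    (x y : Vt (C := Th n) X) (f' : filt (Hm (C := Th n) X x y) ⟶ FHm D (vf f x) (vf f y))
    (_ : ∀ (g : (Gn n)ᵒᵖ) (k : SimplexCategoryᵒᵖ)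
        (z : ((Hm (C := Th n) X x y).obj (op ((tower n).obj g.unop))).obj k),
        ((f'.app g).app k z).1 =
          (f.app (op ((segG n).obj g.unop))).app k (Hm.val (C := Th n) z))
    (i : Fin (n + 1)) (a b : Vt (C := Th n) (level (filt X) i.succ))
    (_ : (X.map ((trUnit (n + 1) i.succ).app (ptT (n + 1))).op).app _ a = x)
    (_ : (X.map ((trUnit (n + 1) i.succ).app (ptT (n + 1))).op).app _ b = y),
    vtMap (C := Th n) (levelHom f i.succ) a = vlev D (vf f x) i.succ ∧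
    vtMap (C := Th n) (levelHom f i.succ) b = vlev D (vf f y) i.succ ∧
    ∀ m : ℕ, ES n m (HmMap (C := Th n) (levelHom f i.succ) a b) ↔ ES n m (levelHom f' i)

/-! ### Suspended lifting problems -/

section

variable {C : Type} [SmallCategory C]

/-- Lifting problems against suspensions with fixed ends. -/
theorem susp_lift {Z Z' : SP (Wr C)} (q : Z ⟶ Z') (u v : Vt Z) {P Q : SP C} (b : P ⟶ Q)
    (H : ∀ (x : P ⟶ Hm Z u v) (y : Q ⟶ Hm Z' (vtMap q u) (vtMap q v)),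
      x ≫ HmMap q u v = b ≫ y → ∃ z : Q ⟶ Hm Z u v, b ≫ z = x ∧ z ≫ HmMap q u v = y)
    (x : V1 P ⟶ Z) (y : V1 Q ⟶ Z') (hxy : x ≫ q = V1map b ≫ y)
    (hx : ∀ (i : Fin 2) (l : SimplexCategoryᵒᵖ), (x.app (op Wr.pt)).app l (vsEnd P i Wr.pt l) =
      cst (Z.obj (op Wr.pt)) (pk u v i) l) :
    ∃ z : V1 Q ⟶ Z, V1map b ≫ z = x ∧ z ≫ q = y := by
  have hpk : ∀ i : Fin 2, pk (vtMap q u) (vtMap q v) i = vtMap q (pk u v i) := by
    intro i
    fin_cases i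
    · rfl
    · rfl
  have hy : ∀ (i : Fin 2) (l : SimplexCategoryᵒᵖ), (y.app (op Wr.pt)).app l (vsEnd Q i Wr.pt l) =
      cst (Z'.obj (op Wr.pt)) (pk (vtMap q u) (vtMap q v) i) l := by
    intro i l
    have e1 := congrArg (fun r : V1 P ⟶ Z' => (r.app (op Wr.pt)).app l (vsEnd P i Wr.pt l)) hxy
    have e2 : (y.app (op Wr.pt)).app l (((V1map b).app (op Wr.pt)).app l (vsEnd P i Wr.pt l)) =
      (y.app (op Wr.pt)).app l (vsEnd Q i Wr.pt l) :=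
      congrArg ((y.app (op Wr.pt)).app l) (V1map_vsEnd b (op Wr.pt) l i)
    refine e2.symm.trans (e1.symm.trans ?_)
    refine (congrArg ((q.app (op Wr.pt)).app l) (hx i l)).trans ?_
    refine (app_cst (q.app (op Wr.pt)) (pk u v i) l).trans ?_
    rw [hpk]
  obtain ⟨z, hz1, hz2⟩ := H (desusH x hx) (desusH y hy) (by
    refine NatTrans.ext (funext fun c => NatTrans.ext (funext fun l => ?_))
    refine ConcreteCategory.hom_ext _ _ fun p => ?_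
    refine Subtype.ext ?_
    exact congrArg (fun r : V1 P ⟶ Z' => (r.app (op (seg c.unop))).app l (vsOf P p)) hxy)
  refine ⟨susH z, V1_extH (fun c l p => ?_) fun i l => ?_, V1_extH (fun c l p => ?_) fun i l => ?_⟩
  · refine (susH_vsOf z c l ((b.app c).app l p)).trans ?_
    exact congrArg (fun r : P ⟶ Hm Z u v => Hm.val ((r.app c).app l p)) hz1
  · refine (congrArg (((susH z).app (op Wr.pt)).app l) (V1map_vsEnd b (op Wr.pt) l i)).trans ?_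
    exact (susH_vsEnd z i l).trans (hx i l).symm
  · refine (congrArg ((q.app (op (seg c.unop))).app l) (susH_vsOf z c l p)).trans ?_
    exact congrArg (fun r : Q ⟶ Hm Z' (vtMap q u) (vtMap q v) => Hm.val ((r.app c).app l p)) hz2
  · refine (congrArg ((q.app (op Wr.pt)).app l) (susH_vsEnd z i l)).trans ?_
    refine (app_cst (q.app (op Wr.pt)) (pk u v i) l).trans ?_
    refine Eq.trans ?_ (hy i l).symm
    rw [hpk]

theorem ofHom_toHom {A : Type} [SmallCategory A] {X Y : SP A} (φ : MpS X Y ⦋0⦌) :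
    MpS.ofHom ⦋0⦌ (toHom φ) = φ := by
  refine MpS.ext ?_
  funext a k s x
  refine congrArg (fun t => φ.app a k t x) ?_
  ext i : 3
  exact Subsingleton.elim (α := Fin 1) _ _

/-- Lifting problems against suspensions: it is enough to treat ends in a set of vertices meeting
all components. -/
theorem susp_lift' {Z Z' : SP (Wr C)} (hZ : InjFib Z) (hZ' : InjFib Z') (q : Z ⟶ Z')
    (hq : InjFibration q) {P Q : SP C} (b : P ⟶ Q) (hb : ∀ a, Mono (b.app a))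
    (O : Set (Vt Z)) (hO : ∀ z : Vt Z, ∃ x ∈ O, Cn (Z.obj (op Wr.pt)) x z)
    (H : ∀ u ∈ O, ∀ v ∈ O, ∀ (x : P ⟶ Hm Z u v) (y : Q ⟶ Hm Z' (vtMap q u) (vtMap q v)),
      x ≫ HmMap q u v = b ≫ y → ∃ z : Q ⟶ Hm Z u v, b ≫ z = x ∧ z ≫ HmMap q u v = y)
    (x : V1 P ⟶ Z) (y : V1 Q ⟶ Z') (hxy : x ≫ q = V1map b ≫ y) :
    ∃ z : V1 Q ⟶ Z, V1map b ≫ z = x ∧ z ≫ q = y := by
  have hm : ∀ a, Mono ((V1map b).app a) := V1map_mono b hb
  have hp : KanFib (Fp.fst (Mp.post (V1 P) q) (Mp.pre (V1map b) Z') ≫ endsV P Z) :=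
    kanFib_comp (Fp_fst_kanFib _ _ (Mp_pre_kanFib (V1map b) hm hZ')) (endsV_kanFib P hZ)
  let σ : (Fp (Mp.post (V1 P) q) (Mp.pre (V1map b) Z')).obj (op ⦋0⦌) :=
    ⟨(MpS.ofHom ⦋0⦌ x, MpS.ofHom ⦋0⦌ y), congrArg (MpS.ofHom ⦋0⦌) hxy⟩
  obtain ⟨u, hu, e, he0, he1⟩ := hO ((x.app (op Wr.pt)).app (op ⦋0⦌) (vsEnd P 0 Wr.pt (op ⦋0⦌)))
  obtain ⟨v, hv, e', he0', he1'⟩ :=
    hO ((x.app (op Wr.pt)).app (op ⦋0⦌) (vsEnd P 1 Wr.pt (op ⦋0⦌)))
  have hc : Cn (Z.obj (op Wr.pt) ⊗ Z.obj (op Wr.pt)) (u, v)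
      ((Fp.fst (Mp.post (V1 P) q) (Mp.pre (V1map b) Z') ≫ endsV P Z).app _ σ) :=
    ⟨(e, e'), Prod.ext he0 he0', Prod.ext he1 he1'⟩
  obtain ⟨σ', hσ', hcσ⟩ := cn_lift hp hc
  have hσu : ((σ'.1.1 : MpS (V1 P) Z ⦋0⦌).app (op Wr.pt) (op ⦋0⦌) (𝟙 _)
      (vsEnd P 0 Wr.pt (op ⦋0⦌))) = u := congrArg Prod.fst hσ'
  have hσv : ((σ'.1.1 : MpS (V1 P) Z ⦋0⦌).app (op Wr.pt) (op ⦋0⦌) (𝟙 _)
      (vsEnd P 1 Wr.pt (op ⦋0⦌))) = v := congrArg Prod.snd hσ'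
  have hx0 : ∀ i : Fin 2, ((toHom (σ'.1.1 : MpS (V1 P) Z ⦋0⦌)).app (op Wr.pt)).app (op ⦋0⦌)
      (vsEnd P i Wr.pt (op ⦋0⦌)) = pk u v i := by
    intro i
    have e : (SimplexCategory.const ⦋0⦌ ⦋0⦌ 0) = 𝟙 ⦋0⦌ := by
      ext j : 3
      exact Subsingleton.elim (α := Fin 1) _ _
    have e2 : ((toHom (σ'.1.1 : MpS (V1 P) Z ⦋0⦌)).app (op Wr.pt)).app (op ⦋0⦌)
      (vsEnd P i Wr.pt (op ⦋0⦌)) = (σ'.1.1 : MpS (V1 P) Z ⦋0⦌).app (op Wr.pt) (op ⦋0⦌) (𝟙 _)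
      (vsEnd P i Wr.pt (op ⦋0⦌)) := congrArg (fun t => (σ'.1.1 : MpS (V1 P) Z ⦋0⦌).app (op Wr.pt)
        (op ⦋0⦌) t (vsEnd P i Wr.pt (op ⦋0⦌))) e
    refine e2.trans ?_
    fin_cases i
    · exact hσu
    · exact hσv
  have hx' : ∀ (i : Fin 2) (l : SimplexCategoryᵒᵖ),
      ((toHom (σ'.1.1 : MpS (V1 P) Z ⦋0⦌)).app (op Wr.pt)).app l (vsEnd P i Wr.pt l) =
      cst (Z.obj (op Wr.pt)) (pk u v i) l := by
    intro i l
    rw [← hx0 i]
    refine Eq.trans ?_ (hom_natk (toHom (σ'.1.1 : MpS (V1 P) Z ⦋0⦌))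
      (SimplexCategory.const l.unop ⦋0⦌ 0).op (vsEnd P i Wr.pt (op ⦋0⦌)))
    refine congrArg (((toHom (σ'.1.1 : MpS (V1 P) Z ⦋0⦌)).app (op Wr.pt)).app l) ?_
    exact VS.ext' rfl fun (p : Fin 0) => p.elim0
  obtain ⟨z, hz1, hz2⟩ := susp_lift q u v b (H u hu v hv) (toHom (σ'.1.1 : MpS (V1 P) Z ⦋0⦌))
    (toHom (σ'.1.2 : MpS (V1 Q) Z' ⦋0⦌)) (congrArg (fun φ : MpS (V1 P) Z' ⦋0⦌ => toHom φ) σ'.2) hx'
  have hz : (sqMap (V1map b) q).app (op ⦋0⦌) (MpS.ofHom ⦋0⦌ z) = σ' := by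
    refine Subtype.ext (Prod.ext ?_ ?_)
    · refine Eq.trans ?_ (ofHom_toHom (σ'.1.1 : MpS (V1 P) Z ⦋0⦌))
      exact congrArg (MpS.ofHom ⦋0⦌) hz1
    · refine Eq.trans ?_ (ofHom_toHom (σ'.1.2 : MpS (V1 Q) Z' ⦋0⦌))
      exact congrArg (MpS.ofHom ⦋0⦌) hz2
  rw [← hz] at hcσ
  obtain ⟨ζ, hζ, -⟩ := cn_lift (sqMap_kanFib (V1map b) hm q hq)
    (cn_symm (sq_kan (V1map b) hm q hZ hZ') hcσ)
  refine ⟨toHom ζ, ?_, ?_⟩
  · exact congrArg (fun φ : MpS (V1 P) Z ⦋0⦌ => toHom φ) (congrArg (fun r => r.1.1) hζ)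
  · exact congrArg (fun φ : MpS (V1 Q) Z' ⦋0⦌ => toHom φ) (congrArg (fun r => r.1.2) hζ)

end

end Helper64FL2
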