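import Pool.Agent.Helper64.FL2.GauntC
import Pool.Agent.Helper51.FL2.Spine
import Pool.Agent.Helper41.FL2.V4

/-!
# FL2-F8: `KnownGaunt n`, unconditionally
-/

open CategoryTheory MonoidalCategory Opposite FL

set_option autoImplicit false

namespace Pool.Agent.Helper64.FL2

/-- Segal covers are colimit diagrams in gaunt categories, and generate them: `KnownGaunt n`. -/
theorem knownGaunt (n : ℕ) : KnownGaunt n :=
  knownGaunt_of (fun hX hS _ B U hU => Pool.Agent.Helper51.FL2.vface_spine hX hS B U hU)
    (fun hX _ _ f O hO => Helper53FL2.loc_V1map_iff hX f O hO)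
    (fun hX O hO => Helper41FL2.sg_succ_iff hX O hO) n

end Pool.Agent.Helper64.FL2
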