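import Pool.Agent.Helper64.FL2.Words

/-!
# The pairing for `E[U] ∪_v E[U'] ⟶ E[U ∪ U']`
-/

open CategoryTheory Opposite FL

set_option autoImplicit false

namespace Pool.Agent.Helper64.FL2

variable {S : Type}

/-- `q` is the first crossing of the word `w`. -/
def Cr (U : Bool → Set S) {n : ℕ} (w : Fin (n + 1) → S) (q : Fin (n + 1)) : Prop :=
  ∃ b : Bool, (∀ i < q, w i ∈ U b) ∧ (∃ i < q, w i ∉ U (!b)) ∧ w q ∉ U b

lemma Cr.unique {U : Bool → Set S} {n : ℕ} {w : Fin (n + 1) → S} {q q' : Fin (n + 1)}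
    (h : Cr U w q) (h' : Cr U w q') : q = q' := by
  by_contra hne
  wlog hlt : q < q' generalizing q q'
  · exact this h' h (Ne.symm hne) (lt_of_le_of_ne (not_lt.1 hlt) (Ne.symm hne))
  obtain ⟨b, h1, ⟨i, hi, h2⟩, h3⟩ := h
  obtain ⟨b', h1', h2', h3'⟩ := h'
  by_cases hb : b' = b
  · subst hb
    exact h3 (h1' q hlt)
  · have : b' = !b := by cases b <;> cases b' <;> simp_all
    subst this
    exact h2 (h1' i (hi.trans hlt))

lemma Cr.exists {U : Bool → Set S} (hU : U true ∪ U false = Set.univ)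
    {n : ℕ} {w : Fin (n + 1) → S} (h : ∀ b, ∃ i, w i ∉ U b) : ∃ q, Cr U w q := by
  classical
  have key : ∀ b : Bool, ∃ a, w a ∉ U b ∧ ∀ i < a, w i ∈ U b := by
    intro b
    obtain ⟨a, ha, hmin⟩ := WellFounded.has_min (wellFounded_lt (α := Fin (n + 1)))
      {i | w i ∉ U b} (h b)
    exact ⟨a, ha, fun i hi => by_contra fun hi' => hmin i hi' hi⟩
  obtain ⟨a, ha, ha'⟩ := key true
  obtain ⟨c, hc, hc'⟩ := key false
  have hne : a ≠ c := by
    rintro rfl
    have : w a ∈ U true ∪ U false := by rw [hU]; trivial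
    rcases this with h | h
    · exact ha h
    · exact hc h
  rcases lt_or_gt_of_ne hne with hlt | hlt
  · exact ⟨c, false, hc', ⟨a, hlt, ha⟩, hc⟩
  · exact ⟨a, true, ha', ⟨c, hlt, hc⟩, ha⟩

/-- The letter before the first crossing is `v`. -/
def TI (U : Bool → Set S) (v : S) {n : ℕ} (w : Fin (n + 1) → S) : Prop :=
  ∃ q, Cr U w q ∧ ∃ j : Fin (n + 1), j.val + 1 = q.val ∧ w j = v

/-- The letter before the first crossing is not `v`. -/
def TII (U : Bool → Set S) (v : S) {n : ℕ} (w : Fin (n + 1) → S) : Prop :=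
  ∃ q, Cr U w q ∧ ∀ j : Fin (n + 1), j.val + 1 = q.val → w j ≠ v

lemma not_TI_TII {U : Bool → Set S} {v : S} {n : ℕ} {w : Fin (n + 1) → S}
    (h : TI U v w) (h' : TII U v w) : False := by
  obtain ⟨q, hq, j, hj, hj'⟩ := h
  obtain ⟨q', hq', hh⟩ := h'
  obtain rfl := hq.unique hq'
  exact hh j hj hj'

/-- The index type: type (I) words. -/
structure Ix (U : Bool → Set S) (v : S) where
  /-- the dimension of the type (II) simplex -/
  d : ℕ
  /-- the type (I) word -/
  w : Fin (d + 2) → S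
  nd : ∀ i : Fin (d + 1), w i.castSucc ≠ w i.succ
  /-- the position of the letter to be deleted -/
  p : Fin (d + 1)
  hp : w p.castSucc = v
  cr : Cr U w p.succ

section

variable {U : Bool → Set S} {v : S} (hv : ∀ b, v ∈ U b)

include hv in
/-- There is a letter before `p` of the side `b` different from `v`. -/
lemma Ix.exists_lt (s : Ix U v) : ∃ b, (∀ i ≤ s.p.castSucc, s.w i ∈ U b) ∧
    (∃ i < s.p.castSucc, s.w i ∉ U (!b)) ∧ s.w s.p.succ ∉ U b := by
  obtain ⟨b, h1, ⟨i, hi, h2⟩, h3⟩ := s.cr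
  refine ⟨b, fun i hi => h1 i (lt_of_le_of_lt hi (Fin.castSucc_lt_succ)), ⟨i, ?_, h2⟩, h3⟩
  rcases lt_or_eq_of_le (show i ≤ s.p.castSucc from by
    rw [Fin.le_def]; rw [Fin.lt_def] at hi; simp at hi ⊢; omega) with h | h
  · exact h
  · exact absurd (by rw [h, s.hp]; exact hv _) h2

/-- the type (II) word -/
def Ix.u (s : Ix U v) : Fin (s.d + 1) → S := fun k => s.w (s.p.castSucc.succAbove k)

lemma Ix.u_lt (s : Ix U v) {k : Fin (s.d + 1)} (hk : k < s.p) : s.u k = s.w k.castSucc := by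
  unfold Ix.u
  rw [Fin.succAbove_of_castSucc_lt _ _ (by simpa using hk)]

lemma Ix.u_ge (s : Ix U v) {k : Fin (s.d + 1)} (hk : s.p ≤ k) : s.u k = s.w k.succ := by
  unfold Ix.u
  rw [Fin.succAbove_of_le_castSucc _ _ (by simpa using hk)]

include hv in
lemma Ix.cr_u (s : Ix U v) : Cr U s.u s.p := by
  obtain ⟨b, h1, ⟨i, hi, h2⟩, h3⟩ := s.exists_lt hv
  refine ⟨b, fun k hk => ?_, ⟨i.castLT (by have := i.2; rw [Fin.lt_def] at hi; simp at hi; omega),
    by rw [Fin.lt_def] at hi ⊢; simpa using hi, ?_⟩, ?_⟩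
  · rw [s.u_lt hk]
    exact h1 _ (le_of_lt (by simpa using hk))
  · rw [s.u_lt (by rw [Fin.lt_def] at hi ⊢; simpa using hi)]
    simpa using h2
  · rw [s.u_ge le_rfl]
    exact h3

include hv in
lemma Ix.tII (s : Ix U v) : TII U v s.u := by
  refine ⟨s.p, s.cr_u hv, fun j hj => ?_⟩
  have hlt : j < s.p := by rw [Fin.lt_def]; omega
  rw [s.u_lt hlt]
  have := s.nd j
  intro h
  apply this
  refine h.trans (s.hp.symm.trans (congrArg s.w ?_))
  ext
  simp [← hj]

lemma Ix.tI (s : Ix U v) : TI U v s.w :=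
  ⟨s.p.succ, s.cr, s.p.castSucc, by simp, s.hp⟩

include hv in
lemma Ix.nd_u (s : Ix U v) (i : ℕ) (hi : i + 1 < s.d + 1) :
    s.u ⟨i, by omega⟩ ≠ s.u ⟨i + 1, hi⟩ := by
  rcases lt_trichotomy (i + 1) s.p.val with h | h | h
  · rw [s.u_lt (by rw [Fin.lt_def]; simp; omega),
      s.u_lt (by rw [Fin.lt_def]; simpa using h)]
    exact s.nd ⟨i, by omega⟩
  · rw [s.u_lt (by rw [Fin.lt_def]; simp; omega),
      s.u_ge (by rw [Fin.le_def]; simp; omega)]
    obtain ⟨b, h1, h2, h3⟩ := s.exists_lt hv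
    intro h'
    apply h3
    have e : s.p.succ = (⟨i + 1, hi⟩ : Fin (s.d + 1)).succ := by ext; simp; omega
    rw [e, ← h']
    exact h1 _ (by rw [Fin.le_def]; simp; omega)
  · rw [s.u_ge (by rw [Fin.le_def]; simp; omega),
      s.u_ge (by rw [Fin.le_def]; simp; omega)]
    exact s.nd ⟨i + 1, by omega⟩

include hv in
/-- Deleting another letter `v` gives a word of type (I). -/
lemma Ix.tI_face (s : Ix U v) (j : Fin (s.d + 2)) (hj : s.w j = v) (hjp : j ≠ s.p.castSucc) :
    TI U v (fun k => s.w (j.succAbove k)) := by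
  obtain ⟨b, h1, ⟨i, hi, h2⟩, h3⟩ := s.exists_lt hv
  have hij : i ≠ j := by rintro rfl; exact h2 (by rw [hj]; exact hv _)
  rw [Fin.lt_def, Fin.val_castSucc] at hi
  have hjp' : j.val ≠ s.p.val := fun h => hjp (Fin.ext (by simpa using h))
  have hjs : j.val ≠ s.p.val + 1 := by
    intro h
    apply s.nd s.p
    refine s.hp.trans (hj.symm.trans (congrArg s.w ?_))
    ext
    simpa using h
  have h1' : ∀ k : Fin (s.d + 2), k.val ≤ s.p.val → s.w k ∈ U b := fun k hk =>
    h1 k (by rw [Fin.le_def]; simpa using hk)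
  rcases lt_or_gt_of_ne hjp' with hlt | hgt
  · -- j < p
    have hval : ∀ k : Fin (s.d + 1), (j.succAbove k).val = if k.val < j.val then k.val else k.val + 1 := by
      intro k
      by_cases hk : k.val < j.val
      · rw [Fin.succAbove_of_castSucc_lt _ _ (by rw [Fin.lt_def]; simpa using hk), if_pos hk]; rfl
      · rw [Fin.succAbove_of_le_castSucc _ _ (by rw [Fin.le_def]; simpa using hk), if_neg hk]; rfl
    have hpp := s.p.2
    refine ⟨s.p, ⟨b, fun k hk => ?_, ?_, ?_⟩, ⟨⟨s.p.val - 1, by omega⟩, by simp; omega, ?_⟩⟩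
    · apply h1'
      rw [hval]
      rw [Fin.lt_def] at hk
      split_ifs <;> omega
    · obtain ⟨k, rfl⟩ := Fin.exists_succAbove_eq hij
      refine ⟨k, ?_, h2⟩
      rw [hval] at hi
      rw [Fin.lt_def]
      split_ifs at hi <;> omega
    · have e : j.succAbove s.p = s.p.succ := by
        ext
        rw [hval, if_neg (by omega)]
        rfl
      change s.w (j.succAbove s.p) ∉ U b
      rw [e]
      exact h3
    · have e : j.succAbove ⟨s.p.val - 1, by omega⟩ = s.p.castSucc := by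
        ext
        rw [hval, if_neg (by simp; omega)]
        simp
        omega
      change s.w (j.succAbove _) = v
      rw [e]
      exact s.hp
  · -- p + 1 < j
    have hval : ∀ k : Fin (s.d + 1), (j.succAbove k).val = if k.val < j.val then k.val else k.val + 1 := by
      intro k
      by_cases hk : k.val < j.val
      · rw [Fin.succAbove_of_castSucc_lt _ _ (by rw [Fin.lt_def]; simpa using hk), if_pos hk]; rfl
      · rw [Fin.succAbove_of_le_castSucc _ _ (by rw [Fin.le_def]; simpa using hk), if_neg hk]; rfl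
    have hj2 := j.2
    refine ⟨⟨s.p.val + 1, by omega⟩, ⟨b, fun k hk => ?_, ?_, ?_⟩, ⟨s.p, by simp, ?_⟩⟩
    · apply h1'
      rw [hval]
      rw [Fin.lt_def] at hk
      simp at hk
      split_ifs <;> omega
    · obtain ⟨k, rfl⟩ := Fin.exists_succAbove_eq hij
      refine ⟨k, ?_, h2⟩
      rw [hval] at hi
      rw [Fin.lt_def]
      simp
      split_ifs at hi <;> omega
    · have e : j.succAbove ⟨s.p.val + 1, by omega⟩ = s.p.succ := by
        ext
        rw [hval, if_pos (by simp; omega)]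
        rfl
      change s.w (j.succAbove _) ∉ U b
      rw [e]
      exact h3
    · have e : j.succAbove s.p = s.p.castSucc := by
        ext
        rw [hval, if_pos (by omega)]
        rfl
      change s.w (j.succAbove _) = v
      rw [e]
      exact s.hp

/-- Insert `v` at position `p`. -/
def ins {n : ℕ} (v : S) (w : Fin (n + 1) → S) (p : Fin (n + 1)) : Fin (n + 2) → S := fun i =>
  if h : i.val < p.val then w ⟨i.val, by omega⟩
  else if h' : i.val = p.val then v else w ⟨i.val - 1, by omega⟩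

lemma ins_lt {n : ℕ} (v : S) (w : Fin (n + 1) → S) (p : Fin (n + 1)) (i : Fin (n + 2))
    (h : i.val < p.val) : ins v w p i = w ⟨i.val, by omega⟩ := by
  unfold ins
  rw [dif_pos h]

lemma ins_eq {n : ℕ} (v : S) (w : Fin (n + 1) → S) (p : Fin (n + 1)) (i : Fin (n + 2))
    (h : i.val = p.val) : ins v w p i = v := by
  unfold ins
  rw [dif_neg (by omega), dif_pos h]

lemma ins_gt {n : ℕ} (v : S) (w : Fin (n + 1) → S) (p : Fin (n + 1)) (i : Fin (n + 2))
    (h : p.val < i.val) : ins v w p i = w ⟨i.val - 1, by omega⟩ := by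
  unfold ins
  rw [dif_neg (by omega), dif_neg (by omega)]

lemma ins_face {n : ℕ} (v : S) (w : Fin (n + 1) → S) (p : Fin (n + 1)) (k : Fin (n + 1)) :
    ins v w p (p.castSucc.succAbove k) = w k := by
  by_cases hk : k.val < p.val
  · rw [Fin.succAbove_of_castSucc_lt _ _ (by rw [Fin.lt_def]; simpa using hk),
      ins_lt _ _ _ _ (by simpa using hk)]
    rfl
  · rw [Fin.succAbove_of_le_castSucc _ _ (by rw [Fin.le_def]; simpa using hk),
      ins_gt _ _ _ _ (by simp; omega)]
    rfl

lemma Ix.ins_u (s : Ix U v) : ins v s.u s.p = s.w := by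
  funext i
  rcases lt_trichotomy i.val s.p.val with h | h | h
  · rw [ins_lt _ _ _ _ h, s.u_lt (by rw [Fin.lt_def]; exact h)]
    rfl
  · refine (ins_eq _ _ _ _ h).trans (s.hp.symm.trans (congrArg s.w ?_))
    ext
    simpa using h.symm
  · rw [ins_gt _ _ _ _ h, s.u_ge (by rw [Fin.le_def]; simp; omega)]
    congr 1
    ext
    simp
    omega

/-- The subcomplex. -/
abbrev AA (U : Bool → Set S) : (EN S).Subcomplex := ENsub (U true) ⊔ ENsub (U false)

lemma mem_AA {n : ℕ} (w : Fin (n + 1) → S) :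
    (show (EN S).obj (op (SimplexCategory.mk n)) from w) ∈ (AA U).obj _ ↔ ∃ b, ∀ i, w i ∈ U b := by
  constructor
  · rintro (h | h)
    · exact ⟨true, h⟩
    · exact ⟨false, h⟩
  · rintro ⟨b, h⟩
    cases b
    · exact Or.inr h
    · exact Or.inl h

omit hv in
lemma Cr.notMem {n : ℕ} {w : Fin (n + 1) → S} {q : Fin (n + 1)} (h : Cr U w q) :
    ¬ ∃ b, ∀ i, w i ∈ U b := by
  rintro ⟨b', hb'⟩
  obtain ⟨b, h1, ⟨i, hi, h2⟩, h3⟩ := h
  by_cases hb : b' = b
  · subst hb
    exact h3 (hb' q)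
  · have : b' = !b := by cases b <;> cases b' <;> simp_all
    subst this
    exact h2 (hb' i)

include hv in
lemma nd_u' (s : Ix U v) (i : Fin s.d) : s.u i.castSucc ≠ s.u i.succ :=
  s.nd_u hv i.val (by omega)

lemma Ix.ext' {s t : Ix U v} (hd : s.d = t.d) (hw : ∀ (i : ℕ) (hi : i < s.d + 2),
    s.w ⟨i, hi⟩ = t.w ⟨i, by omega⟩) : s = t := by
  obtain ⟨d, w, nd, p, hp, cr⟩ := s
  obtain ⟨d', w', nd', p', hp', cr'⟩ := t
  obtain rfl : d = d' := hd
  obtain rfl : w = w' := funext fun i => hw i.val i.2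
  obtain rfl : p = p' := Fin.succ_injective _ (cr.unique cr')
  rfl

include hv in
lemma surj_word (hU : U true ∪ U false = Set.univ) {n : ℕ} (w : Fin (n + 1) → S)
    (hnd' : ∀ i : Fin n, w i.castSucc ≠ w i.succ) (hm' : ∀ b, ∃ i, w i ∉ U b) :
    ∃ s : Ix U v, (∃ h : n = s.d + 1, w = fun i => s.w (Fin.cast (by rw [h]) i)) ∨
      (∃ h : n = s.d, w = fun i => s.u (Fin.cast (by rw [h]) i)) := by
  obtain ⟨q, hq⟩ := Cr.exists hU hm'
  have hq' := hq
  obtain ⟨b, h1, ⟨i, hi, h2⟩, h3⟩ := hq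
  rw [Fin.lt_def] at hi
  have hq2 := q.2
  by_cases hv' : w ⟨q.val - 1, by omega⟩ = v
  · obtain ⟨d, rfl⟩ : ∃ d, n = d + 1 := ⟨n - 1, by omega⟩
    refine ⟨⟨d, w, hnd', ⟨q.val - 1, by omega⟩, hv', ?_⟩, Or.inl ⟨rfl, rfl⟩⟩
    have e : (⟨q.val - 1, by omega⟩ : Fin (d + 1)).succ = q := by ext; simp; omega
    rw [e]
    exact hq'
  · have hvb : ∀ i : Fin (n + 1), i.val = q.val → w i ≠ v := by
      intro i hi h
      obtain rfl : i = q := Fin.ext hi
      exact h3 (h ▸ hv b)
    refine ⟨⟨n, ins v w q, ?_, q, ins_eq _ _ _ _ (by simp), ?_⟩, Or.inr ⟨rfl, ?_⟩⟩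
    · intro i
      rcases lt_trichotomy i.val q.val with h | h | h
      · rw [ins_lt _ _ _ i.castSucc (by simpa using h)]
        rcases lt_or_eq_of_le (Nat.succ_le_of_lt h) with h' | h'
        · rw [ins_lt _ _ _ _ (by simpa using h')]
          exact hnd' ⟨i.val, by omega⟩
        · rw [ins_eq _ _ _ _ (by simpa using h')]
          intro hw
          apply hv'
          rw [← hw]
          congr 1
          ext
          simp
          omega
      · rw [ins_eq _ _ _ i.castSucc (by simpa using h), ins_gt _ _ _ _ (by simp; omega)]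
        exact (hvb _ (by simpa using h)).symm
      · rw [ins_gt _ _ _ i.castSucc (by simpa using h), ins_gt _ _ _ _ (by simp; omega)]
        have := hnd' ⟨i.val - 1, by omega⟩
        intro hw
        apply this
        refine Eq.trans ?_ (hw.trans ?_)
        · rfl
        · congr 1
          ext
          simp
          omega
    · refine ⟨b, ?_, ⟨⟨i.val, by omega⟩, ?_, ?_⟩, ?_⟩
      · intro k hk
        rw [Fin.lt_def, Fin.val_succ] at hk
        rcases lt_or_eq_of_le (Nat.le_of_lt_succ hk) with h | h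
        · rw [ins_lt _ _ _ _ h]
          exact h1 _ (by rw [Fin.lt_def]; exact h)
        · rw [ins_eq _ _ _ _ h]
          exact hv b
      · rw [Fin.lt_def]
        simp
        omega
      · rw [ins_lt _ _ _ _ hi]
        exact h2
      · rw [ins_gt _ _ _ _ (by simp)]
        simpa using h3
    · exact (funext fun k => ins_face v w q k).symm

/-- The pairing core. -/
noncomputable def core (hU : U true ∪ U false = Set.univ) : (AA U).PairingCore where
  ι := Ix U v
  dim s := s.d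
  simplex s := s.w
  index s := s.p.castSucc
  nonDegenerate₁ s := (en_nondeg s.w).2 s.nd
  nonDegenerate₂ s := (en_nondeg s.u).2 (nd_u' hv s)
  notMem₁ s := fun h => s.cr.notMem ((mem_AA s.w).1 h)
  notMem₂ s := fun h => (s.cr_u hv).notMem ((mem_AA s.u).1 h)
  injective_type₁' := by
    intro s t h
    obtain ⟨hd, hw⟩ := (SSet.S.ext_iff' _ _).1 h
    have hd' : s.d = t.d := by simpa using hd
    refine Ix.ext' hd' ?_
    obtain ⟨d, w, nd, p, hp, cr⟩ := s
    obtain ⟨d', w', nd', p', hp', cr'⟩ := t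
    obtain rfl : d = d' := hd'
    intro i hi
    exact congrFun hw ⟨i, hi⟩
  injective_type₂' := by
    intro s t h
    obtain ⟨hd, hw⟩ := (SSet.S.ext_iff' _ _).1 h
    have hd' : s.d = t.d := hd
    have hs := s.cr_u hv
    have ht := t.cr_u hv
    have hs' := s.ins_u
    have ht' := t.ins_u
    refine Ix.ext' hd' ?_
    obtain ⟨d, w, nd, p, hp, cr⟩ := s
    obtain ⟨d', w', nd', p', hp', cr'⟩ := t
    obtain rfl : d = d' := hd'
    have hu : Ix.u ⟨d, w, nd, p, hp, cr⟩ = Ix.u ⟨d, w', nd', p', hp', cr'⟩ := hw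
    rw [hu] at hs hs'
    obtain rfl : p = p' := hs.unique ht
    intro i hi
    change w ⟨i, hi⟩ = w' ⟨i, hi⟩
    have : w = w' := hs'.symm.trans ht'
    rw [this]
  type₁_ne_type₂' := by
    intro s t h
    obtain ⟨hd, hw⟩ := (SSet.S.ext_iff' _ _).1 h
    have hd' : s.d + 1 = t.d := hd
    have h1 := s.tI
    have h2 := t.tII hv
    obtain ⟨d, w, nd, p, hp, cr⟩ := s
    obtain ⟨d', w', nd', p', hp', cr'⟩ := t
    obtain rfl : d + 1 = d' := hd'
    have hu : w = Ix.u ⟨d + 1, w', nd', p', hp', cr'⟩ := hw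
    change TI U v w at h1
    rw [hu] at h1
    exact not_TI_TII h1 h2
  surjective' := by
    intro x
    obtain ⟨n, w, hnd, hm, rfl⟩ := x.mk_surjective
    obtain ⟨s, hs⟩ := surj_word hv hU (n := n) w ((en_nondeg w).1 hnd) (by
      intro b
      by_contra hcon
      push Not at hcon
      exact hm ((mem_AA w).2 ⟨b, hcon⟩))
    refine ⟨s, ?_⟩
    rcases hs with ⟨h, hw⟩ | ⟨h, hw⟩
    · left
      subst h
      exact (SSet.S.ext_iff _ _).2 hw
    · right
      subst h
      exact (SSet.S.ext_iff _ _).2 hw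

instance (hU : U true ∪ U false = Set.univ) : (core hv hU).IsProper where
  isUniquelyCodimOneFace s := by
    change SSet.S.IsUniquelyCodimOneFace (SSet.S.mk _) (SSet.S.mk _)
    rw [SSet.S.IsUniquelyCodimOneFace.iff]
    refine ⟨s.p.castSucc, rfl, fun j hj => ?_⟩
    exact face_inj s.nd (fun k => congrFun hj k)

instance (hU : U true ∪ U false = Set.univ) : (core hv hU).IsInner where
  ne_zero s := by
    obtain ⟨b, h1, ⟨i, hi, h2⟩, h3⟩ := s.exists_lt hv
    intro h
    have : s.p.castSucc = 0 := h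
    rw [this] at hi
    exact absurd hi (Fin.not_lt_zero i)
  ne_last s := Fin.castSucc_ne_last _

/-- The number of letters `v`. -/
noncomputable def cnt (v : S) {n : ℕ} (w : Fin (n + 1) → S) : ℕ := by
  classical exact ∑ i, if w i = v then 1 else 0

lemma cnt_le (v : S) {n : ℕ} (w : Fin (n + 1) → S) : cnt v w ≤ n + 1 := by
  classical
  unfold cnt
  calc _ ≤ ∑ i : Fin (n + 1), 1 := Finset.sum_le_sum fun i _ => by split_ifs <;> simp
    _ = n + 1 := by simp

lemma cnt_face_eq (v : S) {n : ℕ} (w : Fin (n + 2) → S) (j : Fin (n + 2)) (hj : w j = v) :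
    cnt v w = 1 + cnt v (fun k => w (j.succAbove k)) := by
  classical
  unfold cnt
  rw [Fin.sum_univ_succAbove _ j, if_pos hj]

lemma cnt_face_ne (v : S) {n : ℕ} (w : Fin (n + 2) → S) (j : Fin (n + 2)) (hj : w j ≠ v) :
    cnt v w = cnt v (fun k => w (j.succAbove k)) := by
  classical
  unfold cnt
  rw [Fin.sum_univ_succAbove _ j, if_neg hj, zero_add]

/-- The weak rank function. -/
noncomputable def rk (hU : U true ∪ U false = Set.univ) : (core hv hU).WeakRankFunction ℕ where
  rank s := s.d + 1 - cnt v (Ix.u s)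
  lt := by
    intro s t hst hd
    obtain ⟨hne, hlt⟩ := hst
    have h1 := s.tII hv
    have h2 := t.tI_face hv
    have h3 := t.hp
    have h4 := cnt_face_eq v t.w t.p.castSucc t.hp
    have hle := cnt_le v s.u
    have hle' := cnt_le v t.u
    obtain ⟨f, hf, hfe⟩ := SSet.N.le_iff_exists_mono.1 (le_of_lt hlt)
    have hd' : s.d = t.d := hd
    have hne' : ¬ ∀ i (hi : i < s.d + 1), s.u ⟨i, hi⟩ = t.u ⟨i, by omega⟩ := by
      intro hcon
      apply hne
      apply (core hv hU).injective_type₂'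
      obtain ⟨d, w, nd, p, hp, cr⟩ := s
      obtain ⟨d', w', nd', p', hp', cr'⟩ := t
      obtain rfl : d = d' := hd'
      exact (SSet.S.ext_iff _ _).2 (funext fun i => hcon i.val i.2)
    obtain ⟨d, w, nd, p, hp, cr⟩ := s
    obtain ⟨d', w', nd', p', hp', cr'⟩ := t
    obtain rfl : d = d' := hd'
    change (SimplexCategory.mk d ⟶ SimplexCategory.mk (d + 1)) at f
    have hf' : Mono f := hf
    obtain ⟨j, rfl⟩ := SimplexCategory.eq_δ_of_mono f
    have hj : ∀ k, w' (j.succAbove k) = Ix.u ⟨d, w, nd, p, hp, cr⟩ k := fun k => congrFun hfe k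
    have hjp : j ≠ p'.castSucc := by
      rintro rfl
      exact hne' fun i hi => (hj ⟨i, hi⟩).symm
    have hjv : w' j ≠ v := by
      intro hjv
      have := h2 j hjv hjp
      rw [show (fun k => w' (j.succAbove k)) = Ix.u ⟨d, w, nd, p, hp, cr⟩ from funext hj] at this
      exact not_TI_TII this h1
    have h5 := cnt_face_ne v w' j hjv
    rw [show (fun k => w' (j.succAbove k)) = Ix.u ⟨d, w, nd, p, hp, cr⟩ from funext hj] at h5
    have h6 : cnt v w' = 1 + cnt v (Ix.u ⟨d, w', nd', p', hp', cr'⟩) := h4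
    change d + 1 - cnt v (Ix.u ⟨d, w, nd, p, hp, cr⟩) <
      d + 1 - cnt v (Ix.u ⟨d, w', nd', p', hp', cr'⟩)
    change cnt v (Ix.u ⟨d, w, nd, p, hp, cr⟩) ≤ d + 1 at hle
    omega

end

theorem EN_inner {S : Type} (U U' : Set S) (v : S) (h : U ∩ U' = {v}) (h' : U ∪ U' = Set.univ) :
    SSet.innerAnodyneExtensions (ENsub U ⊔ ENsub U').ι := by
  let V : Bool → Set S := fun b => cond b U U'
  have hvU : v ∈ U ∩ U' := by rw [h]; rfl
  have hv : ∀ b, v ∈ V b := by
    intro b
    cases b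
    · exact hvU.2
    · exact hvU.1
  have : (core (U := V) hv h').IsRegular := (rk (U := V) hv h').isRegular
  exact (core (U := V) hv h').pairing.innerAnodyneExtensions

end Pool.Agent.Helper64.FL2
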