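import Pool.Agent.Helper41.FL2.RR
import Pool.Agent.Helper91.FL2.WH
import Pool.Agent.Helper64.FL.FL9
import Pool.Agent.Helper94.FL.Holim
import Pool.Agent.Helper61.FL14
import Pool.Agent.Helper58.FL2.Flag2

/-!
# FL2-F9: Segal descent and locality
-/

open CategoryTheory MonoidalCategory Opposite FL

set_option autoImplicit false

namespace Pool.Agent.Helper64.FL2

open Pool.Agent.Helper88.FL Pool.Agent.Helper46.FLb

section

variable {A : Type} [SmallCategory A]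

theorem yoOut_yoIn (Z : SP A) (a : Aᵒᵖ) : yoOut Z a ≫ yoIn Z a = 𝟙 _ := by
  ext k φ
  refine MpS.ext ?_
  funext b l s u
  have h1 := MpS.nat_right (φ : MpS (rep a.unop) Z k.unop) a s.op (𝟙 _)
    (𝟙 a.unop : a.unop ⟶ a.unop)
  have h2 := MpS.nat_left (φ : MpS (rep a.unop) Z k.unop) (Quiver.Hom.op (u : b.unop ⟶ a.unop)) l s
    (𝟙 a.unop : a.unop ⟶ a.unop)
  refine (congrArg ((Z.map (Quiver.Hom.op (u : b.unop ⟶ a.unop))).app l) h1.symm).trans ?_
  have e1 : s.op.unop ≫ 𝟙 k.unop = s := Category.comp_id s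
  rw [e1]
  refine Eq.trans h2.symm ?_
  refine congrArg (MpS.app (φ : MpS (rep a.unop) Z k.unop) b l s) ?_
  exact Category.comp_id (u : b.unop ⟶ a.unop)

theorem yoIn_hoEq (Z : SP A) (a : Aᵒᵖ) : HoEq (yoIn Z a) := by
  have : IsIso (yoIn Z a) := ⟨yoOut Z a, yoIn_yoOut Z a, yoOut_yoIn Z a⟩
  exact hoEq_of_isIso _

theorem sieveCompare_nat {X Y : SP A} (η : X ⟶ Y) {a : A} (S : Sieve a) :
    sieveCompare X S ≫ Mp.post (W (SvObj S)) (Functor.whiskerLeft (svProj S).op η) =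
      η.app (op a) ≫ sieveCompare Y S := by
  ext k x
  refine MpS.ext ?_
  funext j l s w
  refine (hom_nat η j.unop.f.op _).trans ?_
  exact congrArg ((Y.map j.unop.f.op).app l) (hom_natk η s.op x)

/-- Yoneda for the diagram of a sieve. -/
noncomputable def yoDiag (Y : SP A) {a : A} (S : Sieve a) :
    (svProj S).op ⋙ Y ⟶ mpDiag (svDiag S) Y where
  app j := yoIn Y (op j.unop.b)
  naturality i j f := by
    ext k x
    refine MpS.ext ?_
    funext c m t u
    refine (congrArg ((Y.map (Quiver.Hom.op (u : c.unop ⟶ j.unop.b))).app m)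
      (sp_nat Y f.unop.1.op t.op x)).symm.trans ?_
    exact (sp_comp Y f.unop.1.op (Quiver.Hom.op (u : c.unop ⟶ j.unop.b)) _).symm

theorem desc_aux (Y : SP A) {a b c d : A} (f : b ⟶ a) (u : b ⟶ d) (g : d ⟶ a) (h : u ≫ g = f)
    (y : c ⟶ b) {k l m : SimplexCategory} (s : l ⟶ k) (t : m ⟶ l)
    (x : (Y.obj (op a)).obj (op k)) :
    (Y.map y.op).app (op m) ((Y.obj (op b)).map t.op ((Y.map f.op).app (op l)
      ((Y.obj (op a)).map s.op x))) =
    (Y.map ((y ≫ u) ≫ g).op).app (op m) ((Y.obj (op a)).map (t ≫ s).op x) := by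
  rw [Category.assoc, h, op_comp, op_comp, sp_comp, sset_comp, ← sp_nat]

theorem sieveCompare_yo (Y : SP A) {a : A} (S : Sieve a)
    (e : Mp (Hoco (svDiag S)) Y ≅ Holim (mpDiag (svDiag S) Y))
    (he : ∀ (k : SimplexCategoryᵒᵖ) (ψ : MpS (Hoco (svDiag S)) Y k.unop) (j : (SvObj S)ᵒᵖ)
        (l : SimplexCategoryᵒᵖ)
        (s : l.unop ⟶ k.unop) (w : WS j.unop l.unop) (a : Aᵒᵖ) (m : SimplexCategoryᵒᵖ)
        (t : m.unop ⟶ l.unop) (y : (((svDiag S).obj j.unop).obj a).obj m),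
        ((e.hom.app k ψ : MpS (W (SvObj S)) (mpDiag (svDiag S) Y) k.unop).app j l s w :
          MpS ((svDiag S).obj j.unop) Y l.unop).app a m t y =
        ψ.app a m (t ≫ s) ⟨w.σ.res t, (((svDiag S).map (w.u ≫ w.σ.zeroTo t)).app a).app m y⟩) :
    sieveCompare Y S ≫ Mp.post (W (SvObj S)) (yoDiag Y S) =
      yoIn Y (op a) ≫ Mp.pre (svCone S) Y ≫ e.hom := by
  ext k x
  refine MpS.ext ?_
  funext j l s w
  refine MpS.ext ?_
  funext c m t y
  refine Eq.trans ?_ (he k _ j l s w c m t y).symm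
  have h := (WS.u (w : WS j.unop l.unop) ≫ Chain.zeroTo (WS.σ (w : WS j.unop l.unop)) t).2
  exact desc_aux Y j.unop.f
    (WS.u (w : WS j.unop l.unop) ≫ Chain.zeroTo (WS.σ (w : WS j.unop l.unop)) t).1
    (((WS.σ (w : WS j.unop l.unop)).res t).obj 0).f h (y : c.unop ⟶ j.unop.b) s t x

theorem sieveCompare_iff_loc {Y : SP A} (hY : InjFib Y) {a : A} (S : Sieve a) :
    HoEq (sieveCompare Y S) ↔ Loc Y (sieveIncl S) := by
  obtain ⟨e, he⟩ := Helper61FL.exists_holimIso (svDiag S) Y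
  obtain ⟨π, hπ, hπ'⟩ := Pool.Agent.Helper64.FLCan.svCone_factor S
  have hK := Pool.Agent.Helper91.FL2.objKan_of_injFib hY
  have hK1 : ObjKan ((svProj S).op ⋙ Y) := fun j => hK _
  have hM : ∀ P : SP A, SSet.KanComplex (Mp P Y) := fun P => Pool.Agent.Helper83.FL4.Mp_kan P hY
  have hK2 : ObjKan (mpDiag (svDiag S) Y) := fun j => hM _
  have hH1 := Pool.Agent.Helper94.FL.Holim_kan hK1
  have hH2 := Pool.Agent.Helper94.FL.Holim_kan hK2
  have h1 : HoEq (Mp.post (W (SvObj S)) (yoDiag Y S)) :=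
    Pool.Agent.Helper94.FL.Holim_hoEq hK1 hK2 _ fun j => yoIn_hoEq Y _
  have h2 := sieveCompare_yo Y S e he
  have h3 : HoEq (Mp.pre π Y) := Pool.Agent.Helper91.FL2.preHoEq π hπ' hY
  have h4 : Mp.pre (svCone S) Y = Mp.pre (sieveIncl S) Y ≫ Mp.pre π Y := by rw [← hπ]; rfl
  have h5 : HoEq e.hom := hoEq_of_isIso _
  have h6 := yoIn_hoEq Y (op a)
  constructor
  · intro h
    have h7 := hoEq_comp (hK _) hH1 hH2 h h1
    rw [h2] at h7
    have h8 := hoEq_of_comp_left (hK _) (hM _) hH2 h6 h7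
    have h9 := hoEq_of_comp_right (hM _) (hM _) hH2 h5 h8
    rw [h4] at h9
    exact hoEq_of_comp_right (hM _) (hM _) (hM _) h3 h9
  · intro h
    have h9 : HoEq (Mp.pre (svCone S) Y) := by
      rw [h4]
      exact hoEq_comp (hM _) (hM _) (hM _) h h3
    have h8 := hoEq_comp (hM _) (hM _) hH2 h9 h5
    have h7 := hoEq_comp (hK _) (hM _) hH2 h6 h8
    rw [← h2] at h7
    exact hoEq_of_comp_right (hK _) hH1 hH2 h1 h7

theorem sieveCompare_iff {X Y : SP A} (hX : ObjKan X) (hY : ObjKan Y) (η : X ⟶ Y)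
    (h : ObjHoEq η) {a : A} (S : Sieve a) :
    HoEq (sieveCompare X S) ↔ HoEq (sieveCompare Y S) := by
  have hK1 : ObjKan ((svProj S).op ⋙ X) := fun j => hX _
  have hK2 : ObjKan ((svProj S).op ⋙ Y) := fun j => hY _
  have hH1 := Pool.Agent.Helper94.FL.Holim_kan hK1
  have hH2 := Pool.Agent.Helper94.FL.Holim_kan hK2
  have h1 : HoEq (Mp.post (W (SvObj S)) (Functor.whiskerLeft (svProj S).op η)) :=
    Pool.Agent.Helper94.FL.Holim_hoEq hK1 hK2 _ fun j => h _
  have h2 := sieveCompare_nat η S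
  constructor
  · intro h3
    have h4 := hoEq_comp (hX _) hH1 hH2 h3 h1
    rw [h2] at h4
    exact hoEq_of_comp_left (hX _) (hY _) hH2 (h _) h4
  · intro h3
    have h4 := hoEq_comp (hX _) (hY _) hH2 (h _) h3
    rw [← h2] at h4
    exact hoEq_of_comp_right (hX _) hH1 hH2 h1 h4

end

theorem segalDescent_iff {n : ℕ} {X : SP (Th n)} (hX : ObjKan X) :
    SegalDescent X ↔ Sg n ((RR (Th n)).obj X) := by
  have hI : InjFib ((RR (Th n)).obj X) := Helper41FL2.RR_injFib hX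
  have hK : ObjKan ((RR (Th n)).obj X) := Pool.Agent.Helper91.FL2.objKan_of_injFib hI
  have hη : ObjHoEq ((RR (Th n)).η X) := Helper41FL2.RR_objHoEq hX
  constructor
  · intro h
    exact ⟨hI, fun θ S hS => (sieveCompare_iff_loc hI S).1 ((sieveCompare_iff hX hK _ hη S).1
      (h θ S hS))⟩
  · intro h θ S hS
    exact (sieveCompare_iff hX hK _ hη S).2 ((sieveCompare_iff_loc hI S).2 (h.2 θ S hS))

end Pool.Agent.Helper64.FL2
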