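import Pool.Agent.Helper64.FL2.Surj
import Pool.Agent.Helper41.FL2.F2
import Pool.Agent.Helper7.FL2.Ndh

/-!
# FL2-F6: surjectivity on `k`-morphisms, unconditionally
-/

open CategoryTheory MonoidalCategory Opposite FL

set_option autoImplicit false

namespace Helper64FL2

theorem surjHyp : SurjHyp where
  sg_succ_iff := fun hX O hO => Helper41FL2.sg_succ_iff hX O hO
  FHm_injFib := fun hD x y => Helper41FL2.FHm_injFib hD x y
  FHm_levelMap := fun D x y _ _ h h' => Helper41FL2.FHm_levelMap D x y h h'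
  exists_NDHm := fun f x y => Pool.Agent.Helper7.FL2.exists_NDHm f x y
  vt_filt := fun X i => Pool.Agent.Helper7.FL2.vt_filt X i
  ES_NDHm := fun f x y f' hf' i a b ha hb =>
    Pool.Agent.Helper7.FL2.ES_NDHm f x y f' hf' i a b ha hb

theorem surj_of_ES {n : ℕ} {X : SP (Th n)} {D : SP (Gn n)} (hX : Sg n X)
    (hD : InjFib D) (f : filt X ⟶ D) (h : ∀ i : Fin (n + 1), ES n i (levelHom f i))
    (i j : Fin (n + 1)) (hij : i ≤ j) (k : ℕ) (hk : k ≤ i.1) (P Q : SP (Th n)) (b : P ⟶ Q)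
    (hb : IsBd n k b) (x : P ⟶ level D i) (y : Q ⟶ level D j)
    (hxy : x ≫ levelMap D hij = b ≫ y) :
    ∃ z : Q ⟶ level D i, b ≫ z = x ∧ z ≫ levelMap D hij = y :=
  surj_of_ES_of surjHyp hX hD f h i j hij k hk P Q b hb x y hxy

end Helper64FL2
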