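import Pool.Agent.Helper41.FL2.RR
import Pool.Agent.Helper91.FL2.WH
import Pool.Agent.Helper64.FL.FL9
import Pool.Agent.Helper58.FL2.Flag2

/-!
# FL2-F8: Segal covers are gaunt colimit diagrams
-/

open CategoryTheory MonoidalCategory Opposite FL

set_option autoImplicit false

namespace Pool.Agent.Helper64.FL2

open Pool.Agent.Helper88.FL

section

variable {A : Type} [SmallCategory A] {X : SP A}

theorem lc_isIso {P Q : SP A} (f : P ⟶ Q) (hf : IsIso f) : Loc X f := by
  have : IsIso (Mp.pre f X) := ⟨Mp.pre (inv f) X, by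
    have : Mp.pre f X ≫ Mp.pre (inv f) X = Mp.pre (inv f ≫ f) X := rfl
    rw [this, IsIso.inv_hom_id]; rfl, by
    have : Mp.pre (inv f) X ≫ Mp.pre f X = Mp.pre (f ≫ inv f) X := rfl
    rw [this, IsIso.hom_inv_id]; rfl⟩
  exact hoEq_of_isIso _

theorem lc_comp (hX : InjFib X) {P Q R : SP A} {f : P ⟶ Q} {g : Q ⟶ R} (hf : Loc X f)
    (hg : Loc X g) : Loc X (f ≫ g) :=
  hoEq_comp (Pool.Agent.Helper83.FL4.Mp_kan _ hX) (Pool.Agent.Helper83.FL4.Mp_kan _ hX)
    (Pool.Agent.Helper83.FL4.Mp_kan _ hX) hg hf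

theorem lc_arrow_iso {P Q P' Q' : SP A} {f : P ⟶ Q} {f' : P' ⟶ Q'} (e : P ≅ P')
    (e' : Q ≅ Q') (h : f ≫ e'.hom = e.hom ≫ f') (hf : Loc X f) : Loc X f' := by
  refine hoEq_of_arrow_iso (X := Mp Q X) (Y := Mp P X) (f := Mp.pre f X)
    ⟨Mp.pre e'.inv X, Mp.pre e'.hom X, ?_, ?_⟩ ⟨Mp.pre e.inv X, Mp.pre e.hom X, ?_, ?_⟩ ?_ hf
  · show Mp.pre (e'.hom ≫ e'.inv) X = _
    rw [Iso.hom_inv_id]; rfl
  · show Mp.pre (e'.inv ≫ e'.hom) X = _
    rw [Iso.inv_hom_id]; rfl
  · show Mp.pre (e.hom ≫ e.inv) X = _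
    rw [Iso.hom_inv_id]; rfl
  · show Mp.pre (e.inv ≫ e.hom) X = _
    rw [Iso.inv_hom_id]; rfl
  · show Mp.pre (e.inv ≫ f) X = Mp.pre (f' ≫ e'.inv) X
    congr 1
    rw [Iso.inv_comp_eq, ← Category.assoc, ← h, Category.assoc, Iso.hom_inv_id, Category.comp_id]

end

section

variable {A B : Type} [SmallCategory A] [SmallCategory B]

/-- If all arrows from the image of `F` belong to the sieve, the restricted inclusion is an
isomorphism. -/
theorem isIso_whisker_sieve (F : B ⥤ A) {a : A} (S : Sieve a)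
    (h : ∀ b (f : F.obj b ⟶ a), S.arrows f) :
    IsIso (Functor.whiskerLeft F.op (sieveIncl S)) := by
  let g : F.op ⋙ rep a ⟶ F.op ⋙ disc S.functor :=
    { app := fun b =>
        { app := fun k => ↾ fun (u : F.obj b.unop ⟶ a) =>
            (⟨u, h _ u⟩ : S.functor.obj (op (F.obj b.unop)))
          naturality := fun k l α => rfl }
      naturality := fun b b' g => rfl }
  exact ⟨g, rfl, rfl⟩

end

section

variable {C D : Type} [SmallCategory C] [SmallCategory D] (F : D ⥤ C)

/-- The labels of the restriction of a representable. -/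
abbrev lb (θ : Wr C) : Fin θ.len → SP D := fun k => F.op ⋙ rep (θ.obj k)

/-- `(Wr F)^* h_θ = V(F^* h_{θ_1}, …)`. -/
def repV (θ : Wr C) : V (lb F θ) ≅ (Wr.map F).op ⋙ rep θ where
  hom :=
    { app := fun η =>
        { app := fun k => ↾ fun (u : VS (lb F θ) η.unop k) =>
            (({ f := u.f, g := fun i j h => u.g i j h } :
              Wr.Hom ((Wr.map F).obj η.unop) θ) : (Wr.map F).obj η.unop ⟶ θ)
          naturality := fun k l α => rfl }
      naturality := fun η η' φ => by
        refine NatTrans.ext (funext fun k => ?_)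
        refine ConcreteCategory.hom_ext _ _ fun (u : VS (lb F θ) η.unop k) => ?_
        refine Wr.hom_ext' rfl fun i l h h' => ?_
        obtain ⟨r, hr, hr'⟩ := Jump.split (f := Wr.Hom.f φ.unop) (g := u.f) h
        refine (VS.mapθ_g φ.unop u hr hr').trans ?_
        exact (Wr.comp_g (X := (Wr.map F).obj η'.unop) (Y := (Wr.map F).obj η.unop) (Z := θ)
          ((Wr.map F).map φ.unop) (({ f := u.f, g := fun i j h => u.g i j h } :
              Wr.Hom ((Wr.map F).obj η.unop) θ) : (Wr.map F).obj η.unop ⟶ θ) hr hr').symm }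
  inv :=
    { app := fun η =>
        { app := fun k => ↾ fun (u : (Wr.map F).obj η.unop ⟶ θ) =>
            ({ f := Wr.Hom.f (X := (Wr.map F).obj η.unop) (Y := θ) u
               g := fun i j h => Wr.Hom.g (X := (Wr.map F).obj η.unop) (Y := θ) u i j h } :
              VS (lb F θ) η.unop k)
          naturality := fun k l α => rfl }
      naturality := fun η η' φ => by
        refine NatTrans.ext (funext fun k => ?_)
        refine ConcreteCategory.hom_ext _ _ fun (u : (Wr.map F).obj η.unop ⟶ θ) => ?_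
        refine VS.ext' rfl fun i l h h' => ?_
        obtain ⟨r, hr, hr'⟩ := Jump.split (f := Wr.Hom.f φ.unop)
          (g := Wr.Hom.f (X := (Wr.map F).obj η.unop) (Y := θ) u) h
        refine (Wr.comp_g (X := (Wr.map F).obj η'.unop) (Y := (Wr.map F).obj η.unop) (Z := θ)
          ((Wr.map F).map φ.unop) u hr hr').trans ?_
        exact (VS.mapθ_g φ.unop ({ f := Wr.Hom.f (X := (Wr.map F).obj η.unop) (Y := θ) u
                                   g := fun i j h =>
                                    Wr.Hom.g (X := (Wr.map F).obj η.unop) (Y := θ) u i j h } :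
          VS (lb F θ) η.unop k) hr hr').symm }
  hom_inv_id := rfl
  inv_hom_id := rfl

end

end Pool.Agent.Helper64.FL2
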