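import Pool.Agent.Helper64.FL2.GauntA

/-!
# FL2-F8: restrictions of spines and of suspensions
-/

open CategoryTheory MonoidalCategory Opposite FL

set_option autoImplicit false

namespace Pool.Agent.Helper64.FL2

section

variable {A : Type} [SmallCategory A] {P : SP A}

theorem mem_fsup {ι : Type} (s : Finset ι) (F : ι → Sb P) (a : Aᵒᵖ) (k : SimplexCategoryᵒᵖ)
    (x : (P.obj a).obj k) : x ∈ (s.sup F).mem a k ↔ ∃ i ∈ s, x ∈ (F i).mem a k := by
  classical
  induction s using Finset.induction_on with
  | empty => simp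
  | insert i s hi ih =>
    rw [Finset.sup_insert, Sb.mem_sup, ih]
    simp

end

section

variable {C D : Type} [SmallCategory C] [SmallCategory D]

theorem mem_spineL {m : ℕ} (B : Fin m → SP C) (η : (Wr C)ᵒᵖ) (k : SimplexCategoryᵒᵖ)
    (x : VS B η.unop k) : x ∈ (spineL (vface B) Finset.univ).mem η k ↔
      (∃ v, ∀ t, x.f t = v) ∨ ∃ i : Fin m, ∀ t, x.f t = i.castSucc ∨ x.f t = i.succ := by
  refine (Sb.mem_sup (P := V B) _ _ η k x).trans (or_congr ?_ ?_)
  · refine (mem_fsup (P := V B) _ _ η k x).trans ?_
    constructor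
    · rintro ⟨a, -, h⟩
      exact ⟨a, fun t => by simpa using h t⟩
    · rintro ⟨v, h⟩
      exact ⟨v, Finset.mem_univ _, fun t => by simpa using h t⟩
  refine (mem_fsup (P := V B) _ _ η k x).trans ?_
  · constructor
    · rintro ⟨⟨a, b⟩, hab, h⟩
      simp only [Finset.mem_filter, Finset.mem_product, Finset.mem_univ, true_and, true_implies] at hab
      obtain ⟨hlt, hc⟩ := hab
      have hlt' : a.val < b.val := hlt
      have hb := b.2
      refine ⟨⟨a.val, by omega⟩, fun t => ?_⟩
      have e1 : (⟨a.val, by omega⟩ : Fin m).castSucc = a := rfl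
      have e2 : (⟨a.val, by omega⟩ : Fin m).succ = b := by
        by_contra hne
        apply hc (⟨a.val, by omega⟩ : Fin m).succ
        refine ⟨?_, ?_⟩
        · rw [Fin.lt_def]; simp
        · rw [Fin.lt_def]
          have : b.val ≠ a.val + 1 := fun hh => hne (Fin.ext (by simp [hh]))
          simp
          omega
      rw [e1, e2]
      simpa using h t
    · rintro ⟨i, h⟩
      refine ⟨(i.castSucc, i.succ), ?_, fun t => ?_⟩
      · simp only [Finset.mem_filter, Finset.mem_product, Finset.mem_univ, true_and, true_implies]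
        refine ⟨Fin.castSucc_lt_succ, fun c hc => ?_⟩
        rw [Fin.lt_def, Fin.lt_def] at hc
        simp at hc
        omega
      · simpa using h t

variable (F : D ⥤ C)

/-- The restriction of a sieve, as a sub-presheaf. -/
def sbIso {θ : Wr C} (S : Sb (V (lb F θ))) (R : Sieve θ)
    (h : ∀ (η : (Wr D)ᵒᵖ) (k : SimplexCategoryᵒᵖ) (u : VS (lb F θ) η.unop k),
      u ∈ S.mem η k ↔ R.arrows (((repV F θ).hom.app η).app k u : (Wr.map F).obj η.unop ⟶ θ)) :
    S.toSP ≅ (Wr.map F).op ⋙ disc R.functor where
  hom :=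
    { app := fun η =>
        { app := fun k => ↾ fun (u : { x : VS (lb F θ) η.unop k // x ∈ S.mem η k }) =>
            (⟨((repV F θ).hom.app η).app k u.1, (h η k u.1).1 u.2⟩ :
              R.functor.obj (op ((Wr.map F).obj η.unop)))
          naturality := fun k l α => rfl }
      naturality := fun η η' φ => by
        refine NatTrans.ext (funext fun k => ?_)
        refine ConcreteCategory.hom_ext _ _ fun u => ?_
        exact Subtype.ext (hom_nat (repV F θ).hom φ u.1) }
  inv :=
    { app := fun η =>
        { app := fun k => ↾ fun (u : R.functor.obj (op ((Wr.map F).obj η.unop))) =>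
            (⟨((repV F θ).inv.app η).app k u.1, (h η k _).2 u.2⟩ :
              { x : VS (lb F θ) η.unop k // x ∈ S.mem η k })
          naturality := fun k l α => rfl }
      naturality := fun η η' φ => by
        refine NatTrans.ext (funext fun k => ?_)
        refine ConcreteCategory.hom_ext _ _ fun u => ?_
        exact Subtype.ext (hom_nat (repV F θ).inv φ u.1) }
  hom_inv_id := rfl
  inv_hom_id := rfl

/-- The whole restriction of a representable, as a sub-presheaf. -/
def sbTop {θ : Wr C} (S : Sb (V (lb F θ)))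
    (h : ∀ (η : (Wr D)ᵒᵖ) (k : SimplexCategoryᵒᵖ) (u : VS (lb F θ) η.unop k), u ∈ S.mem η k) :
    S.toSP ≅ (Wr.map F).op ⋙ rep θ where
  hom :=
    { app := fun η =>
        { app := fun k => ↾ fun (u : { x : VS (lb F θ) η.unop k // x ∈ S.mem η k }) =>
            ((repV F θ).hom.app η).app k u.1
          naturality := fun k l α => rfl }
      naturality := fun η η' φ => by
        refine NatTrans.ext (funext fun k => ?_)
        refine ConcreteCategory.hom_ext _ _ fun u => ?_
        exact hom_nat (repV F θ).hom φ u.1 }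
  inv :=
    { app := fun η =>
        { app := fun k => ↾ fun (u : (Wr.map F).obj η.unop ⟶ θ) =>
            (⟨((repV F θ).inv.app η).app k u, h η k _⟩ :
              { x : VS (lb F θ) η.unop k // x ∈ S.mem η k })
          naturality := fun k l α => rfl }
      naturality := fun η η' φ => by
        refine NatTrans.ext (funext fun k => ?_)
        refine ConcreteCategory.hom_ext _ _ fun u => ?_
        exact Subtype.ext (hom_nat (repV F θ).inv φ u) }
  hom_inv_id := rfl
  inv_hom_id := rfl

/-- Restrictions of spines are local. -/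
theorem loc_spine
    (hspine : ∀ {X : SP (Wr D)} (_ : InjFib X) (_ : SpLoc X) {m : ℕ} (B : Fin m → SP D)
      (U : Finset (Fin (m + 1))) (_ : U.Nonempty), LocT X (spineL (vface B) U) (vface B U))
    {Z : SP (Wr D)} (hZ : InjFib Z) (hS : SpLoc Z) (θ : Wr C) :
    Loc Z (Functor.whiskerLeft (Wr.map F).op (sieveIncl (spine θ))) := by
  obtain ⟨hle, hl⟩ := hspine hZ hS (lb F θ) Finset.univ ⟨0, Finset.mem_univ _⟩
  exact lc_arrow_iso (sbIso F (spineL (vface (lb F θ)) Finset.univ) (spine θ)
    (fun η k u => mem_spineL (lb F θ) η k u)) (sbTop F (vface (lb F θ) Finset.univ)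
    (fun η k u t => Finset.mem_univ _)) rfl hl

/-- The restriction of the suspension of a sieve. -/
def suspIso {θ : C} (S : Sieve θ) :
    V1 (F.op ⋙ disc S.functor) ≅ (Wr.map F).op ⋙ disc (suspSieve S).functor where
  hom :=
    { app := fun η =>
        { app := fun k => ↾ fun (u : VS (fun _ : Fin 1 => F.op ⋙ disc S.functor) η.unop k) =>
            (⟨(({ f := u.f, g := fun i j h => (u.g i j h).1 } :
              Wr.Hom ((Wr.map F).obj η.unop) ⟨1, fun _ => θ⟩) :
                (Wr.map F).obj η.unop ⟶ (⟨1, fun _ => θ⟩ : Wr C)), fun i j h => (u.g i j h).2⟩ :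
              (suspSieve S).functor.obj (op ((Wr.map F).obj η.unop)))
          naturality := fun k l α => rfl }
      naturality := fun η η' φ => by
        refine NatTrans.ext (funext fun k => ?_)
        refine ConcreteCategory.hom_ext _ _
          fun (u : VS (fun _ : Fin 1 => F.op ⋙ disc S.functor) η.unop k) => ?_
        refine Subtype.ext (Wr.hom_ext' rfl fun i l h h' => ?_)
        obtain ⟨r, hr, hr'⟩ := Jump.split (f := Wr.Hom.f φ.unop) (g := u.f) h
        refine (congrArg Subtype.val (VS.mapθ_g φ.unop u hr hr')).trans ?_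
        exact (Wr.comp_g (X := (Wr.map F).obj η'.unop) (Y := (Wr.map F).obj η.unop)
          (Z := (⟨1, fun _ => θ⟩ : Wr C))
          ((Wr.map F).map φ.unop) (({ f := u.f, g := fun i j h => (u.g i j h).1 } :
              Wr.Hom ((Wr.map F).obj η.unop) ⟨1, fun _ => θ⟩) :
              (Wr.map F).obj η.unop ⟶ (⟨1, fun _ => θ⟩ : Wr C)) hr hr').symm }
  inv :=
    { app := fun η =>
        { app := fun k => ↾ fun (u : (suspSieve S).functor.obj (op ((Wr.map F).obj η.unop))) =>
            ({ f := Wr.Hom.f (X := (Wr.map F).obj η.unop) (Y := (⟨1, fun _ => θ⟩ : Wr C)) u.1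
               g := fun i j h => ⟨Wr.Hom.g (X := (Wr.map F).obj η.unop)
                (Y := (⟨1, fun _ => θ⟩ : Wr C)) u.1 i j h, u.2 i j h⟩ } :
              VS (fun _ : Fin 1 => F.op ⋙ disc S.functor) η.unop k)
          naturality := fun k l α => rfl }
      naturality := fun η η' φ => by
        refine NatTrans.ext (funext fun k => ?_)
        refine ConcreteCategory.hom_ext _ _
          fun (u : (suspSieve S).functor.obj (op ((Wr.map F).obj η.unop))) => ?_
        refine VS.ext' rfl fun i l h h' => ?_
        obtain ⟨r, hr, hr'⟩ := Jump.split (f := Wr.Hom.f φ.unop)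
          (g := Wr.Hom.f (X := (Wr.map F).obj η.unop) (Y := (⟨1, fun _ => θ⟩ : Wr C)) u.1) h
        refine Subtype.ext ((Wr.comp_g (X := (Wr.map F).obj η'.unop)
          (Y := (Wr.map F).obj η.unop) (Z := (⟨1, fun _ => θ⟩ : Wr C))
          ((Wr.map F).map φ.unop) u.1 hr hr').trans ?_)
        exact (congrArg Subtype.val (VS.mapθ_g φ.unop
          ({ f := Wr.Hom.f (X := (Wr.map F).obj η.unop) (Y := (⟨1, fun _ => θ⟩ : Wr C)) u.1
             g := fun i j h => ⟨Wr.Hom.g (X := (Wr.map F).obj η.unop)
                (Y := (⟨1, fun _ => θ⟩ : Wr C)) u.1 i j h, u.2 i j h⟩ } :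
              VS (fun _ : Fin 1 => F.op ⋙ disc S.functor) η.unop k) hr hr')).symm }
  hom_inv_id := rfl
  inv_hom_id := rfl

/-- The restriction of a representable suspension. -/
def suspTop (θ : C) :
    V1 (F.op ⋙ rep θ) ≅ (Wr.map F).op ⋙ rep (⟨1, fun _ => θ⟩ : Wr C) :=
  repV F (⟨1, fun _ => θ⟩ : Wr C)

/-- Restrictions of suspensions of sieves. -/
theorem loc_susp {Z : SP (Wr D)} {θ : C} (S : Sieve θ)
    (h : Loc Z (V1map (Functor.whiskerLeft F.op (sieveIncl S)))) :
    Loc Z (Functor.whiskerLeft (Wr.map F).op (sieveIncl (suspSieve S))) :=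
  lc_arrow_iso (suspIso F S) (suspTop F θ) rfl h

end

end Pool.Agent.Helper64.FL2
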