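import Pool.Agent.Helper64.FL2.GauntB
import Pool.Agent.Helper58.FL.RepCat

/-!
# FL2-F8: Segal covers are gaunt colimit diagrams
-/

open CategoryTheory MonoidalCategory Opposite FL

set_option autoImplicit false

namespace Pool.Agent.Helper64.FL2

/-- `knownGaunt`, from the modules H3 (`vface_spine`), V1 (`loc_V1map_iff`), V4
(`sg_succ_iff`). -/
theorem knownGaunt_of
    (hspine : ∀ {C : Type} [SmallCategory C] {X : SP (Wr C)} (_ : InjFib X) (_ : SpLoc X) {m : ℕ}
      (B : Fin m → SP C) (U : Finset (Fin (m + 1))) (_ : U.Nonempty),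
      LocT X (spineL (vface B) U) (vface B U))
    (hV1 : ∀ {C : Type} [SmallCategory C] {X : SP (Wr C)} (_ : InjFib X) {B B' : SP C}
      (f : B ⟶ B') (O : Set (Vt X)) (_ : ∀ z : Vt X, ∃ x ∈ O, Cn (X.obj (op Wr.pt)) x z),
      Loc X (V1map f) ↔ ∀ x ∈ O, ∀ y ∈ O, Loc (Hm X x y) f)
    (hsg : ∀ {n : ℕ} {X : SP (Th (n + 1))} (_ : InjFib X) (O : Set (Vt (C := Th n) X))
      (_ : ∀ z : Vt (C := Th n) X, ∃ x ∈ O, Cn (X.obj (op (ptT (n + 1)))) x z),
      Sg (n + 1) X ↔ SpLoc (C := Th n) X ∧ ∀ x ∈ O, ∀ y ∈ O, Sg n (Hm (C := Th n) X x y))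
    (n : ℕ) : KnownGaunt n := by
  have main : ∀ (n : ℕ) (θ : Th n) (S : Sieve θ), SegCov n θ S → ∀ (i : ℕ) (Z : SP (Th n)),
      Sg n Z → Loc Z (Functor.whiskerLeft (tr n i).op (sieveIncl S)) := by
    intro n θ S hS
    induction hS with
    | spine n θ =>
      intro i Z hZ
      rcases i with _ | i
      · refine lc_isIso _ (isIso_whisker_sieve (tr (n + 1) 0) (FL.spine θ) ?_)
        intro b f
        left
        refine ⟨Wr.Hom.f (X := (Wr.pt : Wr (Th n))) (Y := θ) f 0, fun t => ?_⟩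
        exact congrArg (Wr.Hom.f (X := (Wr.pt : Wr (Th n))) (Y := θ) f)
          (Subsingleton.elim (α := Fin 1) _ _)
      · have hcn : ∀ z : Vt (C := Th n) Z, ∃ x ∈ (Set.univ : Set (Vt (C := Th n) Z)),
            Cn (Z.obj (op (ptT (n + 1)))) x z := fun z => ⟨z, trivial, Pool.Agent.Helper91.FL2.cn_refl z⟩
        have h2 := (hsg hZ.1 Set.univ hcn).1 hZ
        exact loc_spine (D := Th n) (tr n i) (fun hX hS => hspine hX hS) hZ.1 h2.1 θ
    | @susp n θ S h ih =>
      intro i Z hZ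
      rcases i with _ | i
      · refine lc_isIso _ (isIso_whisker_sieve (tr (n + 1) 0) (suspSieve S) ?_)
        intro b f p
        exact Fin.elim0 p
      · have hcn : ∀ z : Vt (C := Th n) Z, ∃ x ∈ (Set.univ : Set (Vt (C := Th n) Z)),
            Cn (Z.obj (op (ptT (n + 1)))) x z :=
          fun z => ⟨z, trivial, Pool.Agent.Helper91.FL2.cn_refl z⟩
        have h2 := (hsg hZ.1 Set.univ hcn).1 hZ
        refine loc_susp (C := Th n) (D := Th n) (tr n i) S ?_
        refine (hV1 (C := Th n) hZ.1 _ Set.univ hcn).2 fun x hx y hy => ?_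
        exact ih i _ (h2.2 x hx y hy)
  intro θ S hS
  refine ⟨fun j => Pool.Agent.Helper58.FLR.rep_isCat _, Pool.Agent.Helper58.FLR.rep_isCat _, ?_⟩
  intro i _ Z hZ
  obtain ⟨π, hπ, hπ'⟩ := Pool.Agent.Helper64.FLCan.svCone_factor S
  have h1 : Functor.whiskerLeft (tr n i).op (svCone S) =
      Functor.whiskerLeft (tr n i).op π ≫ Functor.whiskerLeft (tr n i).op (sieveIncl S) := by
    rw [← hπ]; rfl
  show Loc Z _
  rw [h1]
  refine lc_comp hZ.inj ?_ (main n θ S hS i Z ⟨hZ.inj, hZ.segal⟩)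
  exact Pool.Agent.Helper91.FL2.preHoEq _ (fun a => hπ' _) hZ.inj

end Pool.Agent.Helper64.FL2
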