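import Pool.Agent.Helper64.FL2.SurjC

/-!
# Project FL2, module F6 (SURJ): surjectivity on `k`-morphisms
-/

open CategoryTheory MonoidalCategory Simplicial Opposite

set_option autoImplicit false

namespace Helper64FL2

open FL
open Helper53FL2 (pk V1map_mono)

theorem IsBd.mono {n k : ℕ} {P Q : SP (Th n)} {b : P ⟶ Q} (hb : IsBd n k b) :
    ∀ a, Mono (b.app a) := by
  induction hb with
  | zero n =>
    intro a
    refine Helper53FL2.mono_of_inj _ fun k => ?_
    intro (x : PEmpty) y _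
    exact x.elim
  | susp f h ih => exact V1map_mono f ih

theorem lift_transport {A : Type} [SmallCategory A] {P Q L L' H : SP A} (b : P ⟶ Q) (m : L ⟶ L')
    (e : L' ≅ H) (g : L ⟶ H) (he : m ≫ e.hom = g)
    (K : ∀ (x : P ⟶ L) (y : Q ⟶ L'), x ≫ m = b ≫ y → ∃ z : Q ⟶ L, b ≫ z = x ∧ z ≫ m = y)
    (x : P ⟶ L) (y : Q ⟶ H) (hxy : x ≫ g = b ≫ y) :
    ∃ z : Q ⟶ L, b ≫ z = x ∧ z ≫ g = y := by
  subst he
  obtain ⟨z, hz1, hz2⟩ := K x (y ≫ e.inv) (by
    rw [← cancel_mono e.hom, Category.assoc, Category.assoc, Category.assoc, Iso.inv_hom_id,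
      Category.comp_id]
    exact hxy)
  refine ⟨z, hz1, ?_⟩
  rw [← Category.assoc, hz2, Category.assoc, Iso.inv_hom_id, Category.comp_id]

theorem surj_of_ES_of (HH : SurjHyp) {n : ℕ} {X : SP (Th n)} {D : SP (Gn n)} (hX : Sg n X)
    (hD : InjFib D) (f : filt X ⟶ D) (h : ∀ i : Fin (n + 1), ES n i (levelHom f i))
    (i j : Fin (n + 1)) (hij : i ≤ j) (k : ℕ) (hk : k ≤ i.1) (P Q : SP (Th n)) (b : P ⟶ Q)
    (hb : IsBd n k b) (x : P ⟶ level D i) (y : Q ⟶ level D j)
    (hxy : x ≫ levelMap D hij = b ≫ y) :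
    ∃ z : Q ⟶ level D i, b ≫ z = x ∧ z ≫ levelMap D hij = y := by
  induction hb with
  | zero n => exact surj_zero hD f h i j hij x y
  | @susp n k P Q b hb ih =>
    obtain ⟨i, rfl⟩ : ∃ i' : Fin (n + 1), i = i'.succ := by
      refine Fin.exists_succ_eq.2 ?_ |>.imp fun _ h => h.symm
      rintro rfl
      exact absurd hk (Nat.not_succ_le_zero k)
    obtain ⟨j, rfl⟩ : ∃ j' : Fin (n + 1), j = j'.succ := by
      refine Fin.exists_succ_eq.2 ?_ |>.imp fun _ h => h.symm
      rintro rfl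
      exact absurd (hk.trans hij) (Nat.not_succ_le_zero k)
    have hij' : i ≤ j := Fin.succ_le_succ_iff.1 hij
    have hk' : k ≤ i.1 := Nat.le_of_succ_le_succ hk
    have hES : ∀ i' : Fin (n + 1), ES (n + 1) (i'.1 + 1) (levelHom f i'.succ) := fun i' =>
      h i'.succ
    refine susp_lift' (C := Th n) (lv_injFib hD i.succ) (lv_injFib hD j.succ)
      (levelMap D hij) (lvMap_injFibration hD hij) b (IsBd.mono hb)
      (Set.range fun a : Vt (C := Th n) (level (filt X) i.succ) =>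
        vtMap (C := Th n) (levelHom f i.succ) a) ?_ ?_ x y hxy
    · intro z
      obtain ⟨a, ha⟩ := (hES i).1 z
      exact ⟨_, ⟨a, rfl⟩, ha⟩
    · rintro _ ⟨a, rfl⟩ _ ⟨a', rfl⟩
      let x₀ : Vt (C := Th n) X := (X.map ((trUnit (n + 1) i.succ).app (ptT (n + 1))).op).app _ a
      let y₀ : Vt (C := Th n) X := (X.map ((trUnit (n + 1) i.succ).app (ptT (n + 1))).op).app _ a'
      obtain ⟨f', hf', -⟩ := HH.exists_NDHm f x₀ y₀
      obtain ⟨e1, e2, -⟩ := HH.ES_NDHm f x₀ y₀ f' hf' i a a' rfl rfl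
      have hES' : ∀ i' : Fin (n + 1), ES n i' (levelHom f' i') := by
        intro i'
        obtain ⟨c, hc⟩ := (HH.vt_filt X i').2 x₀
        obtain ⟨c', hc'⟩ := (HH.vt_filt X i').2 y₀
        obtain ⟨-, -, e3⟩ := HH.ES_NDHm f x₀ y₀ f' hf' i' c c' hc hc'
        exact (e3 i'.1).1 ((hES i').2 c c')
      have hXX : Sg n (Hm (C := Th n) X x₀ y₀) :=
        ((HH.sg_succ_iff hX.1 Set.univ fun z =>
          ⟨z, trivial, Pool.Agent.Helper91.FL2.cn_refl z⟩).1 hX).2 x₀ trivial y₀ trivial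
      suffices core : ∀ (u v : Vt (C := Th n) (level D i.succ)),
          u = vlev D (vf f x₀) i.succ → v = vlev D (vf f y₀) i.succ →
          ∀ (x : P ⟶ Hm (C := Th n) (level D i.succ) u v)
            (y : Q ⟶ Hm (C := Th n) (level D j.succ) (vtMap (C := Th n) (levelMap D hij) u)
              (vtMap (C := Th n) (levelMap D hij) v)),
            x ≫ HmMap (C := Th n) (levelMap D hij) u v = b ≫ y →
            ∃ z : Q ⟶ Hm (C := Th n) (level D i.succ) u v,
              b ≫ z = x ∧ z ≫ HmMap (C := Th n) (levelMap D hij) u v = y from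
        core _ _ e1 e2
      rintro _ _ rfl rfl x' y' hxy'
      obtain ⟨e, he⟩ := HH.FHm_levelMap D (vf f x₀) (vf f y₀) hij' hij
      exact lift_transport b (levelMap (FHm D (vf f x₀) (vf f y₀)) hij') e
        (HmMap (C := Th n) (levelMap D hij) (vlev D (vf f x₀) i.succ)
          (vlev D (vf f y₀) i.succ)) he
        (fun x y hxy => ih hXX (HH.FHm_injFib hD (vf f x₀) (vf f y₀)) f' hES' i j hij' hk' x y hxy)
        x' y' hxy'

end Helper64FL2
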