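import Pool.Agent.Helper53.FL2.HmAdj
import Pool.Agent.Helper53.FL2.Inj
import Pool.Agent.Helper91.FL2.WH
import Pool.Agent.Helper91.FL.GauntFinal

/-!
# Project FL2, module F6 (SURJ), part A: lifting in squares, vertices
-/

open CategoryTheory MonoidalCategory Simplicial Opposite

set_option autoImplicit false

namespace Helper64FL2

open FL
open Pool.Agent.Helper83.FL4 (deps exists_rel_ext PPι_trivCof_of_anodyne horn_anodyne
  Mp_post_kanFib Mp_pre_kanFib Mp_kan kan_of_kanFib)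
open Pool.Agent.Helper46.FLb (yoIn yoOut yoIn_yoOut)
open Pool.Agent.Helper91.FL2 (objKan_of_injFib cn_of_htpy cn_symm cn_trans cn_map toHom
  toHom_ofHom)
open Pool.Agent.Helper54.FL2 (cn_lift Fp_fst_kanFib Fp_ext kanFib_comp)

/-! ### Levels -/

theorem lv_injFib {n : ℕ} {D : SP (Gn n)} (hD : InjFib D) (i : Fin (n + 1)) :
    InjFib (level D i) :=
  Pool.Agent.Helper30.FL16.level_injFib_of Pool.Agent.Helper91.FL17a.tool hD i

theorem lvMap_injFibration {n : ℕ} {D : SP (Gn n)} (hD : InjFib D) {i j : Fin (n + 1)}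
    (h : i ≤ j) : InjFibration (levelMap D h) :=
  Pool.Agent.Helper30.FL16.levelMap_injFibration_of Pool.Agent.Helper91.FL17a.tool hD h

/-! ### The values of an injective fibration -/

section

variable {A : Type} [SmallCategory A]

theorem app_kanFib {X Y : SP A} {q : X ⟶ Y} (hq : InjFibration q) (a : Aᵒᵖ) :
    KanFib (q.app a) := by
  intro n i
  refine ⟨fun {t b} sq => ?_⟩
  have h := Mp_post_kanFib (rep a.unop) q hq n i
  have e : yoIn X a ≫ Mp.post (rep a.unop) q = q.app a ≫ yoIn Y a := by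
    ext k x
    refine MpS.ext ?_
    funext c l s u
    show (q.app c).app l ((X.map _).app l ((X.obj a).map s.op x)) =
      (Y.map _).app l ((Y.obj a).map s.op ((q.app a).app k x))
    refine (hom_nat q _ _).trans ?_
    exact congrArg ((Y.map _).app l) (hom_natk q s.op x)
  have sq' : CommSq (t ≫ yoIn X a) (Λ[n + 1, i].ι : (Λ[n + 1, i] : SSet.{0}) ⟶ _)
      (Mp.post (rep a.unop) q) (b ≫ yoIn Y a) := ⟨by
    rw [Category.assoc, e, ← Category.assoc, sq.w, Category.assoc]⟩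
  refine ⟨⟨{ l := sq'.lift ≫ yoOut X a, fac_left := ?_, fac_right := ?_ }⟩⟩
  · rw [← Category.assoc, sq'.fac_left, Category.assoc, yoIn_yoOut, Category.comp_id]
  · have h2 : yoOut X a ≫ q.app a = Mp.post (rep a.unop) q ≫ yoOut Y a := rfl
    rw [Category.assoc, h2, ← Category.assoc, sq'.fac_right, Category.assoc, yoIn_yoOut,
      Category.comp_id]

/-- The comparison map `Map(Q, Z) ⟶ Map(P, Z) ×_{Map(P, Z')} Map(Q, Z')`. -/
def sqMap {P Q Z Z' : SP A} (i : P ⟶ Q) (q : Z ⟶ Z') :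
    Mp Q Z ⟶ Fp (Mp.post P q) (Mp.pre i Z') :=
  Fp.lift (Mp.pre i Z) (Mp.post Q q) rfl

theorem sqMap_kanFib {P Q Z Z' : SP A} (i : P ⟶ Q) (hi : ∀ a, Mono (i.app a)) (q : Z ⟶ Z')
    (hq : InjFibration q) : KanFib (sqMap i q) := by
  intro n k
  refine ⟨fun {u v} sq => ?_⟩
  have hP := PPι_trivCof_of_anodyne deps i _ (horn_anodyne n k)
  have e1 : u ≫ Mp.pre i Z = Λ[n + 1, k].ι ≫ v ≫ Fp.fst _ _ :=
    congrArg (fun r => r ≫ Fp.fst (Mp.post P q) (Mp.pre i Z')) sq.w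
  have e2 : u ≫ Mp.post Q q = Λ[n + 1, k].ι ≫ v ≫ Fp.snd _ _ :=
    congrArg (fun r => r ≫ Fp.snd (Mp.post P q) (Mp.pre i Z')) sq.w
  have e3 : (v ≫ Fp.fst _ _) ≫ Mp.post P q = (v ≫ Fp.snd _ _) ≫ Mp.pre i Z' := by
    rw [Category.assoc, Category.assoc, Pool.Agent.Helper54.FL2.Fp_w]
  obtain ⟨l, hl1, hl2, hl3⟩ := exists_rel_ext i hi Λ[n + 1, k].ι hP q hq
    (Mp.adj (v ≫ Fp.fst _ _)) (Mp.adj u) (Mp.adj (v ≫ Fp.snd _ _))
    (congrArg Mp.adj e1).symm (congrArg Mp.adj e3) (congrArg Mp.adj e2)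
  refine ⟨⟨{ l := Mp.adj.symm l, fac_left := ?_, fac_right := ?_ }⟩⟩
  · apply Mp.adj.injective
    exact (Mp.adj_comp _ (Mp.adj.symm l)).trans
      ((congrArg (tnMap (𝟙 Q) Λ[n + 1, k].ι ≫ ·) (Mp.adj.apply_symm_apply l)).trans hl2)
  · refine Fp_ext ?_ ?_
    · apply Mp.adj.injective
      refine (Mp.adj_pre i (Mp.adj.symm l)).trans ?_
      exact (congrArg (tnMap i (𝟙 _) ≫ ·) (Mp.adj.apply_symm_apply l)).trans hl1
    · apply Mp.adj.injective
      exact (Mp.adj_post q (Mp.adj.symm l)).trans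
        ((congrArg (· ≫ q) (Mp.adj.apply_symm_apply l)).trans hl3)

/-- The space of squares is fibrant. -/
theorem sq_kan {P Q Z Z' : SP A} (i : P ⟶ Q) (hi : ∀ a, Mono (i.app a)) (q : Z ⟶ Z')
    (hZ : InjFib Z) (hZ' : InjFib Z') :
    SSet.KanComplex (Fp (Mp.post P q) (Mp.pre i Z')) :=
  kan_of_kanFib (Fp_fst_kanFib (Mp.post P q) (Mp.pre i Z') (Mp_pre_kanFib i hi hZ'))
    (Mp_kan P hZ)

end

end Helper64FL2
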