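import Pool.Agent.Helper64.FL2.SurjA

/-!
# Project FL2, module F6 (SURJ), part B: objects of length zero, the case of vertices
-/

open CategoryTheory MonoidalCategory Simplicial Opposite

set_option autoImplicit false

namespace Helper64FL2

open FL
open Pool.Agent.Helper91.FL2 (objKan_of_injFib cn_of_htpy cn_symm cn_trans cn_map toHom
  toHom_ofHom)
open Pool.Agent.Helper54.FL2 (cn_lift Fp_fst_kanFib Fp_ext kanFib_comp)

/-- All morphisms between objects of length zero are invertible. -/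
theorem isIso_of_len {C : Type} [SmallCategory C] {X Y : Wr C} (hX : X.len = 0)
    (hY : Y.len = 0) (f : X ⟶ Y) : IsIso f := by
  obtain ⟨m, c⟩ := X
  obtain ⟨m', c'⟩ := Y
  simp only at hX hY
  subst hX
  subst hY
  have hu : ∀ {d d' : Fin 0 → C} (u v : (⟨0, d⟩ : Wr C) ⟶ ⟨0, d'⟩), u = v := by
    intro d d' u v
    refine Wr.hom_ext' ?_ fun (i : Fin 0) _ _ _ => i.elim0
    ext t
    exact congrArg Fin.val (Subsingleton.elim (α := Fin 1) _ _)
  let g : (⟨0, c'⟩ : Wr C) ⟶ ⟨0, c⟩ := ({ f := OrderHom.id, g := fun (i : Fin 0) _ _ => i.elim0 } :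
    Wr.Hom (⟨0, c'⟩ : Wr C) ⟨0, c⟩)
  exact ⟨g, hu _ _, hu _ _⟩

theorem tr_pt_len (n i : ℕ) : ((tr (n + 1) i).obj (ptT (n + 1)) : Wr (Th n)).len = 0 := by
  cases i with
  | zero => rfl
  | succ i => rfl

theorem trMap_pt_isIso (n i j : ℕ) (h : i ≤ j) : IsIso ((trMap n i j h).app (ptT n)) := by
  cases n with
  | zero =>
    show IsIso (𝟙 (ptT 0))
    infer_instance
  | succ n => exact isIso_of_len (tr_pt_len n j) (tr_pt_len n i) _

/-- The maps between the levels of `filt X` are bijective at the point. -/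
theorem filt_pt_surj {n : ℕ} (X : SP (Th n)) {i j : Fin (n + 1)} (h : i ≤ j)
    (a' : ((level (filt X) j).obj (op (ptT n))).obj (op ⦋0⦌)) :
    ∃ a : ((level (filt X) i).obj (op (ptT n))).obj (op ⦋0⦌),
      ((levelMap (filt X) h).app (op (ptT n))).app _ a = a' := by
  let u : (tr n j.1).obj (ptT n) ⟶ (tr n i.1).obj (ptT n) := (tower n).map
    (((𝟙 (ptT n), (homOfLE h).op)) : ((ptT n, op j) : Gn n) ⟶ (ptT n, op i))
  have hu : IsIso u := by
    have := trMap_pt_isIso n i.1 j.1 h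
    show IsIso ((tr n j.1).map (𝟙 (ptT n)) ≫ (trMap n i.1 j.1 h).app (ptT n))
    rw [CategoryTheory.Functor.map_id]
    have e : 𝟙 ((tr n j.1).obj (ptT n)) ≫ (trMap n i.1 j.1 h).app (ptT n) =
      (trMap n i.1 j.1 h).app (ptT n) := Category.id_comp _
    rw [e]
    exact this
  have e : (levelMap (filt X) h).app (op (ptT n)) = X.map u.op := rfl
  refine ⟨(X.map (inv u).op).app _ a', ?_⟩
  rw [e]
  refine (sp_comp X (inv u).op u.op a').symm.trans ?_
  have e2 : (inv u).op ≫ u.op = 𝟙 _ := by rw [← op_comp, IsIso.hom_inv_id, op_id]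
  rw [e2]
  exact sp_id X a'

/-- The morphism to the terminal object of `Θ_n`. -/
theorem exists_toPtT (n : ℕ) : ∃ t : ∀ θ : Th n, θ ⟶ ptT n,
    ∀ (θ : Th n) (f : θ ⟶ ptT n), f = t θ := by
  cases n with
  | zero =>
    have hs : ∀ (a b : Discrete PUnit.{1}) (f g : a ⟶ b), f = g := fun _ _ f g =>
      Subsingleton.elim f g
    exact ⟨fun θ => (eqToHom (Subsingleton.elim (α := Discrete PUnit.{1}) _ _) :
      (θ : Discrete PUnit.{1}) ⟶ ⟨PUnit.unit⟩), fun θ f => hs θ ⟨PUnit.unit⟩ f _⟩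
  | succ n => exact ⟨fun θ => Wr.toPt θ, fun _ f => Wr.toPt_unique f _⟩

/-- ES maps are surjective on components of vertices. -/
theorem ES_vt : ∀ {n i : ℕ} {X Y : SP (Th n)} {f : X ⟶ Y}, ES n i f →
    ∀ y : (Y.obj (op (ptT n))).obj (op ⦋0⦌), ∃ x : (X.obj (op (ptT n))).obj (op ⦋0⦌),
      Cn (Y.obj (op (ptT n))) ((f.app (op (ptT n))).app _ x) y := by
  have key : ∀ {K L : SSet.{0}} {f : K ⟶ L}, HoEq f → ∀ y : L.obj (op ⦋0⦌),
      ∃ x : K.obj (op ⦋0⦌), Cn L (f.app _ x) y := by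
    intro K L f hf y
    obtain ⟨g, -, h2⟩ := hf
    exact ⟨g.app _ y, cn_of_htpy h2 y⟩
  intro n i X Y f h
  cases n with
  | zero => exact key h
  | succ n =>
    cases i with
    | zero => exact key h
    | succ i => exact h.1

/-- The map `1 ⟶ Z` given by a vertex of `Z` at the terminal object. -/
theorem exists_vmap {n : ℕ} (Z : SP (Th n)) (v : (Z.obj (op (ptT n))).obj (op ⦋0⦌)) :
    ∃ z : one (Th n) ⟶ Z, (z.app (op (ptT n))).app (op ⦋0⦌) PUnit.unit = v := by
  obtain ⟨t, ht⟩ := exists_toPtT n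
  refine ⟨{ app := fun θ =>
      { app := fun k => ↾ fun _ => (Z.map (t θ.unop).op).app k (cst (Z.obj (op (ptT n))) v k)
        naturality := fun k l α => ?_ }
            naturality := fun θ θ' g => ?_ }, ?_⟩
  · refine ConcreteCategory.hom_ext _ _ fun x => ?_
    refine Eq.trans ?_ (sp_nat Z (t θ.unop).op α (cst (Z.obj (op (ptT n))) v k))
    exact congrArg ((Z.map (t θ.unop).op).app l) (cst_map (Z.obj (op (ptT n))) v α).symm
  · refine NatTrans.ext (funext fun k => ?_)
    refine ConcreteCategory.hom_ext _ _ fun x => ?_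
    refine Eq.trans ?_ (sp_comp Z (t θ.unop).op g (cst (Z.obj (op (ptT n))) v k))
    refine congrArg (fun r => (Z.map r).app k (cst (Z.obj (op (ptT n))) v k)) ?_
    refine Quiver.Hom.unop_inj ?_
    exact (ht θ'.unop (g.unop ≫ t θ.unop)).symm
  · refine Eq.trans ?_ ((sp_id Z _).trans (cst_zero _ v))
    refine congrArg (fun r => (Z.map r).app (op ⦋0⦌) (cst (Z.obj (op (ptT n))) v (op ⦋0⦌))) ?_
    refine Quiver.Hom.unop_inj ?_
    exact (ht (ptT n) (𝟙 _)).symm

/-- Maps out of the terminal presheaf are determined by one vertex. -/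
theorem vmap_ext {n : ℕ} {Z : SP (Th n)} {y y' : one (Th n) ⟶ Z}
    (h : (y.app (op (ptT n))).app (op ⦋0⦌) PUnit.unit =
      (y'.app (op (ptT n))).app (op ⦋0⦌) PUnit.unit) : y = y' := by
  obtain ⟨t, ht⟩ := exists_toPtT n
  have key : ∀ (y : one (Th n) ⟶ Z) (θ : (Th n)ᵒᵖ) (k : SimplexCategoryᵒᵖ),
      (y.app θ).app k PUnit.unit = (Z.map (t θ.unop).op).app k ((Z.obj (op (ptT n))).map
        (SimplexCategory.const k.unop ⦋0⦌ 0).op
        ((y.app (op (ptT n))).app (op ⦋0⦌) PUnit.unit)) := by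
    intro y θ k
    have e1 := hom_natk y (a := op (ptT n)) (SimplexCategory.const k.unop ⦋0⦌ 0).op PUnit.unit
    have e2 := hom_nat y (t θ.unop).op (k := k) PUnit.unit
    exact e2.trans (congrArg ((Z.map (t θ.unop).op).app k) e1)
  refine NatTrans.ext (funext fun θ => NatTrans.ext (funext fun k => ?_))
  refine ConcreteCategory.hom_ext _ _ fun x => ?_
  obtain rfl : x = PUnit.unit := rfl
  refine (key y θ k).trans (Eq.trans ?_ (key y' θ k).symm)
  rw [h]

/-- The case of vertices. -/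
theorem surj_zero {n : ℕ} {X : SP (Th n)} {D : SP (Gn n)} (hD : InjFib D) (f : filt X ⟶ D)
    (h : ∀ i : Fin (n + 1), ES n i (levelHom f i)) (i j : Fin (n + 1)) (hij : i ≤ j)
    (x : empt (Th n) ⟶ level D i) (y : one (Th n) ⟶ level D j) :
    ∃ z : one (Th n) ⟶ level D i, emptToOne (Th n) ≫ z = x ∧ z ≫ levelMap D hij = y := by
  obtain ⟨a', ha'⟩ := ES_vt (h j) ((y.app (op (ptT n))).app (op ⦋0⦌) PUnit.unit)
  obtain ⟨a, ha⟩ := filt_pt_surj X hij a'
  have e : levelMap (filt X) hij ≫ levelHom f j = levelHom f i ≫ levelMap D hij := by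
    refine NatTrans.ext (funext fun θ => ?_)
    exact f.naturality _
  have e2 : ((levelHom f j).app (op (ptT n))).app (op ⦋0⦌) a' =
      ((levelMap D hij).app (op (ptT n))).app (op ⦋0⦌)
        (((levelHom f i).app (op (ptT n))).app (op ⦋0⦌) a) := by
    rw [← ha]
    exact congrArg (fun r : level (filt X) i ⟶ level D j => (r.app (op (ptT n))).app (op ⦋0⦌) a) e
  have hK := objKan_of_injFib (lv_injFib hD j) (op (ptT n))
  have hc := cn_symm hK ha'
  rw [e2] at hc
  obtain ⟨v, hv, -⟩ := cn_lift (app_kanFib (lvMap_injFibration hD hij) (op (ptT n))) hc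
  obtain ⟨z, hz⟩ := exists_vmap (level D i) v
  refine ⟨z, ?_, vmap_ext ?_⟩
  · refine NatTrans.ext (funext fun θ => NatTrans.ext (funext fun k => ?_))
    refine ConcreteCategory.hom_ext _ _ fun (u : PEmpty) => u.elim
  · refine Eq.trans ?_ hv
    exact congrArg (((levelMap D hij).app (op (ptT n))).app (op ⦋0⦌)) hz

end Helper64FL2
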