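import Pool.Agent.Helper58.FL2.Comb
import Mathlib.AlgebraicTopology.SimplicialSet.AnodyneExtensions.RankNat
import Mathlib.AlgebraicTopology.SimplicialSet.AnodyneExtensions.Inner.Basic

/-!
# Words: simplices of the nerve of a chaotic category
-/

open CategoryTheory Opposite FL

set_option autoImplicit false

namespace Pool.Agent.Helper64.FL2

variable {S : Type}

lemma en_δ {n : ℕ} (i : Fin (n + 2)) (w : Fin (n + 2) → S) (k : Fin (n + 1)) :
    (show Fin (n + 1) → S from (EN S).δ i w) k = w (i.succAbove k) := rfl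

lemma en_σ {n : ℕ} (i : Fin (n + 1)) (w : Fin (n + 1) → S) (k : Fin (n + 2)) :
    (show Fin (n + 2) → S from (EN S).σ i w) k = w (i.predAbove k) := rfl

lemma en_nondeg {n : ℕ} (w : Fin (n + 1) → S) :
    (show (EN S).obj (op (SimplexCategory.mk n)) from w) ∈ (EN S).nonDegenerate n ↔
      ∀ i : Fin n, w i.castSucc ≠ w i.succ := by
  rcases n with _ | n
  · exact ⟨fun _ i => i.elim0, fun _ => by rw [SSet.nondegenerate_zero]; trivial⟩
  rw [SSet.mem_nonDegenerate_iff_notMem_degenerate, SSet.degenerate_eq_iUnion_range_σ]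
  constructor
  · intro h i hi
    refine h (Set.mem_iUnion.2 ⟨i, ⟨fun k => w (i.castSucc.succAbove k), ?_⟩⟩)
    funext k
    change w (i.castSucc.succAbove (i.predAbove k)) = w k
    by_cases hk : k = i.castSucc
    · subst hk
      simp [hi]
    · rw [Fin.succAbove_predAbove hk]
  · intro h h'
    obtain ⟨i, y, hy⟩ := Set.mem_iUnion.1 h'
    apply h i
    have h1 := congrFun hy i.castSucc
    have h2 := congrFun hy i.succ
    change y (i.predAbove i.castSucc) = w i.castSucc at h1
    change y (i.predAbove i.succ) = w i.succ at h2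
    rw [← h1, ← h2]
    simp

/-- Two faces of a word with different adjacent letters are different. -/
lemma face_inj {n : ℕ} {w : Fin (n + 2) → S} (hw : ∀ i : Fin (n + 1), w i.castSucc ≠ w i.succ)
    {i j : Fin (n + 2)} (h : ∀ k, w (i.succAbove k) = w (j.succAbove k)) : i = j := by
  by_contra hij
  wlog hlt : i < j generalizing i j
  · exact this (fun k => (h k).symm) (Ne.symm hij) (lt_of_le_of_ne (not_lt.1 hlt) (Ne.symm hij))
  obtain ⟨k, rfl⟩ : ∃ k : Fin (n + 1), i = k.castSucc :=
    ⟨i.castLT (by have := j.2; have : i.val < j.val := hlt; omega), rfl⟩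
  have h1 := h k
  rw [Fin.succAbove_castSucc_self, Fin.succAbove_of_castSucc_lt _ _ hlt] at h1
  exact hw k h1.symm

end Pool.Agent.Helper64.FL2
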